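import Pool.Agent.H8.Spl.Stage

set_option autoImplicit false

open Set Filter Topology

namespace Pool.Agent.H8.Spl

open Pool.Agent.H8.Cor

/-- an index set of length omega one -/
theorem exists_omega1 : ∃ (Ω : Type) (_ : LinearOrder Ω), WellFoundedLT Ω ∧ Nonempty Ω ∧
    Cardinal.mk Ω = Cardinal.aleph 1 ∧ (∀ ξ : Ω, (Iio ξ).Countable) ∧
    ∀ s : Set Ω, s.Countable → ∃ ξ, ∀ η ∈ s, η < ξ := by
  classical
  let Ω : Type := Quotient.out (Cardinal.aleph 1)
  have hΩ : Cardinal.mk Ω = Cardinal.aleph 1 := Cardinal.mk_out _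
  obtain ⟨lo, wf, hlt⟩ := exists_wo Ω
  have hunc : ¬ (univ : Set Ω).Countable := by
    intro h
    have h1 := Cardinal.le_aleph0_iff_set_countable.2 h
    rw [Cardinal.mk_univ, hΩ] at h1
    exact absurd Cardinal.aleph0_lt_aleph_one (not_lt.2 h1)
  have hc : ∀ ξ : Ω, (Iio ξ).Countable := by
    intro ξ
    rw [Cardinal.countable_iff_lt_aleph_one]
    have := hlt ξ
    rwa [hΩ] at this
  refine ⟨Ω, lo, wf, ?_, hΩ, hc, ?_⟩
  · by_contra h
    rw [not_nonempty_iff] at h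
    exact hunc (Set.to_countable _)
  · intro s hs
    by_contra hcon
    push Not at hcon
    apply hunc
    refine (hs.biUnion (t := fun η _ => insert η (Iio η)) fun η _ => (hc η).insert η).mono ?_
    intro ξ _
    obtain ⟨η, hη, hle⟩ := hcon ξ
    refine mem_biUnion hη ?_
    rcases lt_or_eq_of_le hle with h | h
    · exact Or.inr h
    · exact Or.inl h

section

variable {X I : Type} [TopologicalSpace X] [LinearOrder I]

theorem Iic_sub_Jk {i0 : I} (h0 : ∀ i, i0 ≤ i) {k : WithTop I} {i : I} (hi : i ∈ Jk i0 k) :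
    Iic i ⊆ Jk i0 k := by
  intro j hj
  rcases hi with hi | rfl
  · exact Or.inl (lt_of_le_of_lt (WithTop.coe_le_coe.2 hj) hi)
  · exact Or.inr (le_antisymm hj (h0 j))

theorem Jk_sub_Iic {i0 : I} (h0 : ∀ i, i0 ≤ i) (i : I) : Jk i0 (i : WithTop I) ⊆ Iic i := by
  rintro j (hj | rfl)
  · exact (WithTop.coe_lt_coe.1 hj).le
  · exact h0 i

theorem Jk_fin {i0 : I} (Φ : Op X I) {k : WithTop I} {F : Finset (ZZ X I)}
    (hF : (F : Set (ZZ X I)) ⊆ hull Φ (emb (Jk i0 k))) :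
    ∃ i ∈ Jk i0 k, (F : Set (ZZ X I)) ⊆ hull Φ (emb (Iic i)) := by
  have hne : Nonempty (Jk i0 k) := ⟨⟨i0, Or.inr rfl⟩⟩
  have hd : Directed (· ⊆ ·) fun i : Jk i0 k => (emb (Iic i.1) : Set (ZZ X I)) := by
    intro i j
    rcases le_total i.1 j.1 with h | h
    · exact ⟨j, image_mono (Iic_subset_Iic.2 h), Subset.rfl⟩
    · exact ⟨i, Subset.rfl, image_mono (Iic_subset_Iic.2 h)⟩
  have h1 : (emb (Jk i0 k) : Set (ZZ X I)) ⊆ ⋃ i : Jk i0 k, emb (Iic i.1) := by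
    rintro _ ⟨i, hi, rfl⟩
    exact mem_iUnion.2 ⟨⟨i, hi⟩, i, le_rfl, rfl⟩
  obtain ⟨i, hi⟩ := hull_iUnion Φ hd (hF.trans (hull_mono Φ h1))
  exact ⟨i.1, i.2, hi⟩

end

theorem main_step {X : Type} [TopologicalSpace X] [CompactSpace X] [T2Space X] (hX : Spl X)
    (B : Set X) (hB : Cardinal.continuum < Cardinal.mk B)
    (IH : ∀ B' : Set X, Cardinal.mk B' < Cardinal.mk B → CorS B') : CorS B := by
  classical
  obtain ⟨lo, wf, hlt⟩ := exists_wo B
  have hne : Nonempty B := by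
    by_contra h
    rw [not_nonempty_iff] at h
    rw [Cardinal.mk_eq_zero] at hB
    exact absurd hB (by simp)
  obtain ⟨i0, -, hi0⟩ := (wellFounded_lt (α := B)).has_min univ ⟨_, mem_univ hne.some⟩
  have h0 : ∀ i, i0 ≤ i := fun i => not_lt.1 (hi0 i (mem_univ i))
  obtain ⟨Ω, loΩ, wfΩ, hΩne, hΩ, hΩ1, hΩ2⟩ := exists_omega1
  have hκ : Cardinal.aleph0 < Cardinal.mk B := Cardinal.aleph0_lt_continuum.trans hB
  have hℵ : Cardinal.aleph 1 < Cardinal.mk B := Cardinal.aleph_one_le_continuum.trans_lt hB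
  have hIic : ∀ i : B, Cardinal.mk (Iic i) < Cardinal.mk B := by
    intro i
    have h1 : Iic i = insert i (Iio i) := by
      ext j
      simp [le_iff_eq_or_lt]
    rw [h1]
    refine (Cardinal.mk_insert_le).trans_lt ?_
    exact Cardinal.add_lt_of_lt hκ.le (hlt i) (Cardinal.one_lt_aleph0.trans hκ)
  have hemb : ∀ i : B, Cardinal.mk (emb (Iic i) : Set (ZZ X B)) < Cardinal.mk B := fun i =>
    (Cardinal.mk_image_le).trans_lt (hIic i)
  have hPX : ∀ G : Set (ZZ X B), Cardinal.mk (PX G) ≤ Cardinal.mk G := fun G =>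
    Cardinal.mk_preimage_of_injective _ G Sum.inl_injective
  let lad : WithTop B → ℕ → B := fun k => if h : ∃ s, Lad i0 k s then h.choose else fun _ => i0
  have hlad : ∀ k, (∃ s, Lad i0 k s) → Lad i0 k (lad k) := by
    intro k h
    have h1 : lad k = h.choose := dif_pos h
    rw [h1]
    exact h.choose_spec
  obtain ⟨Φ0, hΦ0c, hΦ0s, hΦ0b⟩ := basic (X := X) (I := B) (fun b => b.1)
  have hst : ∀ (Φ : Op X B) (P : Set B → Set X), ∃ Ψ : Op X B, (∀ F, (Φ F).Countable) → Srj Φ →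
      ((∀ F, (Ψ F).Countable) ∧
      (∀ G, Cl Ψ G → ∀ i, (Sum.inr (Sum.inr i) : ZZ X B) ∈ G → MX Φ (Iic i) ⊆ PX G →
        ∀ u ∈ closure (MX Φ (Iic i)), ∀ v ∈ closure (MX Φ (Iic i)),
          (∀ g ∈ PC G, g u = g v) → u = v) ∧
      (∀ G, Cl Ψ G → ∀ k : WithTop B, Lad i0 k (lad k) → ∀ u, u ∈ P (Jk i0 k) →
        (∀ l < k, u ∉ P (Jk i0 l)) → zz Φ P i0.1 (lad k) u ∈ P (Jk i0 k) → u ∈ closure (PX G) →
        zz Φ P i0.1 (lad k) u ∈ closure (PX G) → (∀ g ∈ PC G, g u = g (zz Φ P i0.1 (lad k) u)) →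
        zz Φ P i0.1 (lad k) u = u)) := by
    intro Φ P
    by_cases h1 : ∀ F, (Φ F).Countable
    · by_cases h2 : Srj Φ
      · obtain ⟨Ψ, h⟩ := stage i0 hX i0.1 lad Φ h2 P (fun i => IH _
          ((hPX _).trans_lt (hull_card h1 hκ (hemb i))))
        exact ⟨Ψ, fun _ _ => h⟩
      · exact ⟨Φ, fun _ h => absurd h h2⟩
    · exact ⟨Φ, fun h => absurd h h1⟩
  choose st hst using hst
  -- the recursion
  let S : Ω → Op X B × (Set B → Set X) := (wellFounded_lt (α := Ω)).fix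
    (C := fun _ => Op X B × (Set B → Set X))
    (fun ξ ih => (fun F => Φ0 F ∪ ⋃ η, ⋃ h : η < ξ, st (ih η h).1 (ih η h).2 F,
      fun J => ⋃ η, ⋃ h : η < ξ, closure (MX (ih η h).1 J)))
  have hS : ∀ ξ, S ξ = (fun F => Φ0 F ∪ ⋃ η, ⋃ _ : η < ξ, st (S η).1 (S η).2 F,
      fun J => ⋃ η, ⋃ _ : η < ξ, closure (MX (S η).1 J)) := fun ξ =>
    (wellFounded_lt (α := Ω)).fix_eq _ ξ
  let Φs : Ω → Op X B := fun ξ => (S ξ).1
  let Ps : Ω → Set B → Set X := fun ξ => (S ξ).2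
  let sp : Ω → Op X B := fun ξ => st (Φs ξ) (Ps ξ)
  have hΦs : ∀ ξ F, Φs ξ F = Φ0 F ∪ ⋃ η, ⋃ _ : η < ξ, sp η F := by
    intro ξ F
    change (S ξ).1 F = _
    rw [hS ξ]
  have hPs : ∀ ξ J, Ps ξ J = ⋃ η, ⋃ _ : η < ξ, closure (MX (Φs η) J) := by
    intro ξ J
    change (S ξ).2 J = _
    rw [hS ξ]
  have hf0 : ∀ ξ F, Φ0 F ⊆ Φs ξ F := by
    intro ξ F
    rw [hΦs]
    exact subset_union_left
  have hf1 : ∀ η ξ, η < ξ → ∀ F, sp η F ⊆ Φs ξ F := by
    intro η ξ h F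
    rw [hΦs]
    refine Subset.trans ?_ subset_union_right
    intro z hz
    simp only [mem_iUnion]
    exact ⟨η, h, hz⟩
  have hf2 : ∀ η ξ, η ≤ ξ → ∀ F, Φs η F ⊆ Φs ξ F := by
    intro η ξ h F
    rw [hΦs η, hΦs ξ]
    refine union_subset_union_right _ ?_
    intro z hz
    simp only [mem_iUnion] at hz ⊢
    obtain ⟨ζ, hζ, hz⟩ := hz
    exact ⟨ζ, hζ.trans_le h, hz⟩
  have hsrj : ∀ ξ, Srj (Φs ξ) := fun ξ G hG => hΦ0s G fun F hF => (hf0 ξ F).trans (hG F hF)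
  have hcv : ∀ ξ, ∀ F, (Φs ξ F).Countable := by
    intro ξ
    induction ξ using WellFoundedLT.induction with
    | ind ξ ih =>
      intro F
      rw [hΦs]
      refine (hΦ0c F).union ?_
      exact (hΩ1 ξ).biUnion fun η hη => (hst (Φs η) (Ps η) (ih η hη) (hsrj η)).1 F
  have hA : ∀ ξ, ∀ G, Cl (sp ξ) G → ∀ i, (Sum.inr (Sum.inr i) : ZZ X B) ∈ G →
      MX (Φs ξ) (Iic i) ⊆ PX G → ∀ u ∈ closure (MX (Φs ξ) (Iic i)),
      ∀ v ∈ closure (MX (Φs ξ) (Iic i)), (∀ g ∈ PC G, g u = g v) → u = v := fun ξ =>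
    (hst (Φs ξ) (Ps ξ) (hcv ξ) (hsrj ξ)).2.1
  have hBB : ∀ ξ, ∀ G, Cl (sp ξ) G → ∀ k : WithTop B, Lad i0 k (lad k) → ∀ u,
      u ∈ Ps ξ (Jk i0 k) → (∀ l < k, u ∉ Ps ξ (Jk i0 l)) →
      zz (Φs ξ) (Ps ξ) i0.1 (lad k) u ∈ Ps ξ (Jk i0 k) → u ∈ closure (PX G) →
      zz (Φs ξ) (Ps ξ) i0.1 (lad k) u ∈ closure (PX G) →
      (∀ g ∈ PC G, g u = g (zz (Φs ξ) (Ps ξ) i0.1 (lad k) u)) →
      zz (Φs ξ) (Ps ξ) i0.1 (lad k) u = u := fun ξ =>
    (hst (Φs ξ) (Ps ξ) (hcv ξ) (hsrj ξ)).2.2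
  have hlt2 : ∀ ξ η : Ω, ∃ ζ, ξ < ζ ∧ η < ζ := by
    intro ξ η
    obtain ⟨ζ, hζ⟩ := hΩ2 {ξ, η} (Set.toFinite _).countable
    exact ⟨ζ, hζ ξ (by simp), hζ η (by simp)⟩
  -- the limit
  let Gf : Set B → Set (ZZ X B) := fun J => ⋃ ξ, hull (Φs ξ) (emb J)
  let MXf : Set B → Set X := fun J => PX (Gf J)
  let MCf : Set B → Set C(X, ℝ) := fun J => PC (Gf J)
  have hhm : ∀ J, Monotone fun ξ => hull (Φs ξ) (emb J : Set (ZZ X B)) := fun J ξ η h =>
    hull_mono_op (hf2 ξ η h) _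
  have hGm : Monotone Gf := fun J J' h => iUnion_mono fun ξ => hull_mono _ (image_mono h)
  have hmX : Monotone MXf := fun J J' h x hx => hGm h hx
  have hmC : Monotone MCf := fun J J' h x hx => hGm h hx
  have hMXs : ∀ ξ J, MX (Φs ξ) J ⊆ MXf J := fun ξ J x hx => mem_iUnion.2 ⟨ξ, hx⟩
  have hMCs : ∀ ξ J, MC (Φs ξ) J ⊆ MCf J := fun ξ J x hx => mem_iUnion.2 ⟨ξ, hx⟩
  have hGfin : ∀ J (F : Finset (ZZ X B)), (F : Set (ZZ X B)) ⊆ Gf J →
      ∃ ξ, (F : Set (ZZ X B)) ⊆ hull (Φs ξ) (emb J) := fun J F hF =>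
    (directed_of_isDirected_le (hhm J)).exists_mem_subset_of_finset_subset_biUnion hF
  have hclsp : ∀ ξ J, Cl (sp ξ) (Gf J) := by
    intro ξ J F hF
    obtain ⟨η, hη⟩ := hGfin J F hF
    obtain ⟨ζ, h1, h2⟩ := hlt2 ξ η
    refine Subset.trans ?_ (subset_iUnion (fun ξ => hull (Φs ξ) (emb J)) ζ)
    exact (hf1 ξ ζ h1 F).trans (hull_cl (Φs ζ) (emb J) F (hη.trans (hhm J h2.le)))
  have hcl0 : ∀ J, Cl Φ0 (Gf J) := by
    intro J F hF
    obtain ⟨η, hη⟩ := hGfin J F hF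
    refine Subset.trans ?_ (subset_iUnion (fun ξ => hull (Φs ξ) (emb J)) η)
    exact (hf0 η F).trans (hull_cl (Φs η) (emb J) F hη)
  have hsurj : ∀ J u, ∃ w ∈ closure (MXf J), ∀ g ∈ MCf J, g w = g u := fun J u =>
    hΦ0s (Gf J) (hcl0 J) u
  have htight := tightX hX
  have hcl : ∀ J u, u ∈ closure (MXf J) → ∃ ξ, ∀ η, ξ ≤ η → u ∈ closure (MX (Φs η) J) := by
    intro J u hu
    obtain ⟨a, haM, hac, hua⟩ := htight _ _ hu
    have h1 : ∀ x : X, ∃ ξ, x ∈ a → x ∈ MX (Φs ξ) J := by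
      intro x
      by_cases hx : x ∈ a
      · obtain ⟨ξ, hξ⟩ := mem_iUnion.1 (haM hx)
        exact ⟨ξ, fun _ => hξ⟩
      · exact ⟨hΩne.some, fun h => absurd h hx⟩
    choose f hf using h1
    obtain ⟨ξ, hξ⟩ := hΩ2 (f '' a) (hac.image f)
    refine ⟨ξ, fun η hη => closure_mono ?_ hua⟩
    intro x hx
    exact MX_mono (hf2 _ _ ((hξ _ ⟨x, hx, rfl⟩).le.trans hη)) Subset.rfl (hf x hx)
  -- goodness at successors
  have hgood : ∀ J, ∀ i ∈ J, Iic i ⊆ J → ∀ u ∈ closure (MXf (Iic i)),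
      ∀ v ∈ closure (MXf (Iic i)), (∀ g ∈ MCf J, g u = g v) → u = v := by
    intro J i hi hiJ u hu v hv huv
    obtain ⟨ξ, hξ⟩ := hcl _ _ hu
    obtain ⟨η, hη⟩ := hcl _ _ hv
    refine hA (max ξ η) (Gf J) (hclsp _ J) i ?_ ?_ u (hξ _ (le_max_left _ _)) v
      (hη _ (le_max_right _ _)) huv
    · exact mem_iUnion.2 ⟨ξ, subset_hull _ _ ⟨i, hi, rfl⟩⟩
    · exact (hMXs _ _).trans (hmX hiJ)
  have hPmem : ∀ ξ J u, u ∈ Ps ξ J ↔ ∃ η, η < ξ ∧ u ∈ closure (MX (Φs η) J) := by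
    intro ξ J u
    rw [hPs]
    simp only [mem_iUnion, exists_prop]
  have huniq : ∀ ξ i u v, u ∈ Ps ξ (Iic i) → v ∈ Ps ξ (Iic i) →
      (∀ g ∈ MC (Φs ξ) (Iic i), g u = g v) → u = v := by
    intro ξ i u v hu hv huv
    obtain ⟨η, hη, hu⟩ := (hPmem _ _ _).1 hu
    obtain ⟨ζ, hζ, hv⟩ := (hPmem _ _ _).1 hv
    have hm : max η ζ < ξ := max_lt hη hζ
    refine hA (max η ζ) (hull (Φs ξ) (emb (Iic i))) ?_ i ?_ ?_ u ?_ v ?_ huv
    · intro F hF
      exact (hf1 _ _ hm F).trans (hull_cl (Φs ξ) _ F hF)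
    · exact subset_hull _ _ ⟨i, le_rfl, rfl⟩
    · exact MX_mono (hf2 _ _ hm.le) Subset.rfl
    · exact closure_mono (MX_mono (hf2 _ _ (le_max_left _ _)) Subset.rfl) hu
    · exact closure_mono (MX_mono (hf2 _ _ (le_max_right _ _)) Subset.rfl) hv
  have hXfin : ∀ k : WithTop B, ∀ x ∈ MXf (Jk i0 k), ∃ i ∈ Jk i0 k, x ∈ MXf (Iic i) := by
    intro k x hx
    obtain ⟨ξ, hξ⟩ := mem_iUnion.1 hx
    obtain ⟨i, hi, hF⟩ := Jk_fin (Φs ξ) (F := {Sum.inl x}) (by
      rw [Finset.coe_singleton, singleton_subset_iff]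
      exact hξ)
    exact ⟨i, hi, mem_iUnion.2 ⟨ξ, hF (by simp)⟩⟩
  have hCfin : ∀ k : WithTop B, ∀ g ∈ MCf (Jk i0 k), ∃ i ∈ Jk i0 k, g ∈ MCf (Iic i) := by
    intro k x hx
    obtain ⟨ξ, hξ⟩ := mem_iUnion.1 hx
    obtain ⟨i, hi, hF⟩ := Jk_fin (Φs ξ) (F := {Sum.inr (Sum.inl x)}) (by
      rw [Finset.coe_singleton, singleton_subset_iff]
      exact hξ)
    exact ⟨i, hi, mem_iUnion.2 ⟨ξ, hF (by simp)⟩⟩
  have hinj' : ∀ i, ∀ u ∈ closure (MXf (Iic i)), ∀ v ∈ closure (MXf (Iic i)),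
      (∀ g ∈ MCf (Iic i), g u = g v) → u = v := fun i => hgood (Iic i) i le_rfl Subset.rfl
  choose R hRc hRF hRg hRu using fun i : B =>
    retr (closure (MXf (Iic i))) isClosed_closure (MCf (Iic i)) (hsurj _) (hinj' i)
  -- the key claim
  have key : ∀ k : WithTop B, Lad i0 k (lad k) → ∀ u ∈ closure (MXf (Jk i0 k)),
      ((hyperfilter ℕ).map fun n => R (lad k n) u).lim = u := by
    intro k hk u hu
    set z := ((hyperfilter ℕ).map fun n => R (lad k n) u).lim with hz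
    have hlim : Tendsto (fun n => R (lad k n) u) (hyperfilter ℕ) (𝓝 z) :=
      Ultrafilter.le_nhds_lim ((hyperfilter ℕ).map fun n => R (lad k n) u)
    have hzM : z ∈ closure (MXf (Jk i0 k)) := by
      refine isClosed_closure.mem_of_tendsto hlim (Eventually.of_forall fun n => ?_)
      exact closure_mono (hmX (Iic_sub_Jk h0 (hk.1 n))) (hRF _ u)
    have hag : ∀ g ∈ MCf (Jk i0 k), g u = g z := by
      intro g hg
      obtain ⟨i, hi, hgi⟩ := hCfin k g hg
      have h1 : Tendsto (fun m => g (R (lad k m) u)) (hyperfilter ℕ) (𝓝 (g z)) :=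
        (g.continuous.tendsto z).comp hlim
      have h2 : ∀ᶠ m in (hyperfilter ℕ : Filter ℕ), g (R (lad k m) u) = g u := by
        have h3 := hk.2 i hi
        filter_upwards [(Nat.hyperfilter_le_atTop) h3] with m hm
        exact hRg _ u g (hmC (Iic_subset_Iic.2 hm) hgi)
      exact (tendsto_nhds_unique h1 (tendsto_const_nhds.congr' (h2.mono fun _ h => h.symm))).symm
    obtain ⟨ξ1, hξ1⟩ := hcl _ _ hu
    obtain ⟨ξ2, hξ2⟩ := hcl _ _ hzM
    choose ξ3 hξ3 using fun n => hcl _ _ (hRF (lad k n) u)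
    obtain ⟨ξ0, hξ0⟩ := hΩ2 ({ξ1, ξ2} ∪ range ξ3)
      ((Set.toFinite _).countable.union (countable_range _))
    obtain ⟨ξ, hξ, -⟩ := hlt2 ξ0 ξ0
    have hu1 : u ∈ Ps ξ (Jk i0 k) := (hPmem _ _ _).2 ⟨ξ0, hξ, hξ1 _ (hξ0 ξ1 (by simp)).le⟩
    have hz1 : z ∈ Ps ξ (Jk i0 k) := (hPmem _ _ _).2 ⟨ξ0, hξ, hξ2 _ (hξ0 ξ2 (by simp)).le⟩
    have hR1 : ∀ n, R (lad k n) u ∈ closure (MX (Φs ξ0) (Iic (lad k n))) := fun n =>
      hξ3 n _ (hξ0 (ξ3 n) (Or.inr ⟨n, rfl⟩)).le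
    have hsel : ∀ n, sel (Φs ξ) (Ps ξ) i0.1 (lad k n) u = R (lad k n) u := by
      intro n
      have hW : R (lad k n) u ∈ WW (Φs ξ) (lad k n) u ∩ Ps ξ (Iic (lad k n)) := by
        refine ⟨⟨closure_mono (MX_mono (hf2 _ _ hξ.le) Subset.rfl) (hR1 n), fun g hg => ?_⟩, ?_⟩
        · exact hRg _ u g (hMCs _ _ hg)
        · exact (hPmem _ _ _).2 ⟨ξ0, hξ, hR1 n⟩
      have h1 := pick_mem' (x0 := i0.1) ⟨_, hW⟩
      refine huniq ξ (lad k n) _ _ h1.2 hW.2 fun g hg => ?_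
      rw [hW.1.2 g hg]
      exact h1.1.2 g hg
    have hzz : zz (Φs ξ) (Ps ξ) i0.1 (lad k) u = z := by
      rw [hz]
      unfold zz
      congr 2
      funext n
      exact hsel n
    by_cases hlev : ∀ l < k, u ∉ Ps ξ (Jk i0 l)
    · have := hBB ξ (Gf (Jk i0 k)) (hclsp _ _) k hk u hu1 hlev (by rw [hzz]; exact hz1) hu
        (by rw [hzz]; exact hzM) (by rw [hzz]; exact hag)
      rwa [hzz] at this
    · push Not at hlev
      obtain ⟨l, hl, hul⟩ := hlev
      obtain ⟨i, rfl⟩ : ∃ i : B, l = i := by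
        cases l with
        | top => exact absurd hl (not_lt.2 le_top)
        | coe i => exact ⟨i, rfl⟩
      obtain ⟨η, -, hul⟩ := (hPmem _ _ _).1 hul
      have hui : u ∈ closure (MXf (Iic i)) :=
        closure_mono ((hMXs _ _).trans (hmX (Jk_sub_Iic h0 i))) hul
      have h2 : ∀ᶠ m in (hyperfilter ℕ : Filter ℕ), R (lad k m) u = u := by
        have h3 := hk.2 i (Or.inl hl)
        filter_upwards [(Nat.hyperfilter_le_atTop) h3] with m hm
        exact hRu _ u u (closure_mono (hmX (Iic_subset_Iic.2 hm)) hui) fun _ _ => rfl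
      exact tendsto_nhds_unique hlim (tendsto_const_nhds.congr' (h2.mono fun _ h => h.symm))
  have hinj : ∀ k : WithTop B, ∀ u ∈ closure (MXf (Jk i0 k)), ∀ v ∈ closure (MXf (Jk i0 k)),
      (∀ g ∈ MCf (Jk i0 k), g u = g v) → u = v := by
    intro k u hu v hv huv
    by_cases hl : ∃ s, Lad i0 k s
    · have hk := hlad k hl
      have h1 : ∀ n, R (lad k n) u = R (lad k n) v := by
        intro n
        refine hRu _ u _ (hRF _ v) fun g hg => ?_
        rw [hRg _ v g hg]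
        exact (huv g (hmC (Iic_sub_Jk h0 (hk.1 n)) hg)).symm
      have h2 := key k hk u hu
      have h3 := key k hk v hv
      rw [← h2, ← h3]
      congr 2
      funext n
      exact h1 n
    · obtain ⟨a, haM, hac, hua⟩ := htight _ _ hu
      obtain ⟨b, hbM, hbc, hvb⟩ := htight _ _ hv
      have hcne : (a ∪ b).Nonempty := by
        obtain ⟨x, hx⟩ := closure_nonempty_iff.1 ⟨u, hua⟩
        exact ⟨x, Or.inl hx⟩
      obtain ⟨x, hx⟩ := (hac.union hbc).exists_eq_range hcne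
      have hxM : ∀ n, x n ∈ MXf (Jk i0 k) := by
        intro n
        have : x n ∈ a ∪ b := hx ▸ mem_range_self n
        rcases this with h | h
        · exact haM h
        · exact hbM h
      choose j hj hxj using fun n => hXfin k (x n) (hxM n)
      have hbd : ∃ i ∈ Jk i0 k, ∀ n, j n ≤ i := by
        by_contra hcon
        push Not at hcon
        apply hl
        let s : ℕ → B := fun n => Nat.rec (j 0) (fun n y => max y (j (n + 1))) n
        have hs0 : s 0 = j 0 := rfl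
        have hs1 : ∀ n, s (n + 1) = max (s n) (j (n + 1)) := fun n => rfl
        have hsm : Monotone s := monotone_nat_of_le_succ fun n => by
          rw [hs1]
          exact le_max_left _ _
        have hsj : ∀ n, j n ≤ s n := by
          intro n
          cases n with
          | zero => exact le_rfl
          | succ n =>
            rw [hs1]
            exact le_max_right _ _
        refine ⟨s, ?_, ?_⟩
        · intro n
          induction n with
          | zero => exact hj 0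
          | succ n ih =>
            rw [hs1]
            rcases max_choice (s n) (j (n + 1)) with h | h
            · rw [h]
              exact ih
            · rw [h]
              exact hj _
        · intro i hi
          obtain ⟨n, hn⟩ := hcon i hi
          filter_upwards [eventually_ge_atTop n] with m hm
          exact hn.le.trans ((hsj n).trans (hsm hm))
      obtain ⟨i, hi, hji⟩ := hbd
      have hsub : a ∪ b ⊆ MXf (Iic i) := by
        rw [hx]
        rintro _ ⟨n, rfl⟩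
        exact hmX (Iic_subset_Iic.2 (hji n)) (hxj n)
      exact hgood (Jk i0 k) i hi (Iic_sub_Jk h0 hi) u
        (closure_mono (subset_union_left.trans hsub) hua) v
        (closure_mono (subset_union_right.trans hsub) hvb) huv
  have hcor : ∀ i, CorS (MXf (Iic i)) := by
    intro i
    apply IH
    have h1 : ∀ ξ, Cardinal.mk (hull (Φs ξ) (emb (Iic i)) : Set (ZZ X B)) ≤
        max (Cardinal.mk (Iic i)) (Cardinal.aleph 1) := by
      intro ξ
      rw [← Order.lt_succ_iff]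
      refine hull_card (hcv ξ) ?_ ?_
      · rw [Order.lt_succ_iff]
        exact Cardinal.aleph0_lt_aleph_one.le.trans (le_max_right _ _)
      · rw [Order.lt_succ_iff]
        exact (Cardinal.mk_image_le).trans (le_max_left _ _)
    have h2 : Cardinal.mk (Gf (Iic i)) ≤ max (Cardinal.mk (Iic i)) (Cardinal.aleph 1) := by
      refine (Cardinal.mk_iUnion_le_sum_mk).trans ?_
      refine (Cardinal.sum_le_sum _ (fun _ => max (Cardinal.mk (Iic i)) (Cardinal.aleph 1)) h1).trans ?_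
      rw [Cardinal.sum_const', hΩ]
      refine (Cardinal.mul_le_max _ _).trans ?_
      refine max_le (max_le (le_max_right _ _) le_rfl) ?_
      exact Cardinal.aleph0_lt_aleph_one.le.trans (le_max_right _ _)
    exact ((hPX _).trans h2).trans_lt (max_lt (hIic i) hℵ)
  have hfinal := chain i0 h0 htight MXf MCf hmX hmC hXfin hCfin hsurj hinj hinj' hcor
  refine hfinal.mono ?_
  intro x hx
  refine hΦ0b (Gf (Jk i0 ⊤)) (hcl0 _) ⟨x, hx⟩ ?_
  refine mem_iUnion.2 ⟨hΩne.some, subset_hull _ _ ⟨⟨x, hx⟩, Or.inl (WithTop.coe_lt_top _), rfl⟩⟩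

theorem corS_all {X : Type} [TopologicalSpace X] [CompactSpace X] [T2Space X] (hX : Spl X)
    (B : Set X) : CorS B := by
  have : ∀ (κ : Cardinal.{0}) (B : Set X), Cardinal.mk B = κ → CorS B := by
    intro κ
    induction κ using WellFoundedLT.induction with
    | ind κ ih =>
      intro B hB
      by_cases h : Cardinal.mk B ≤ Cardinal.continuum
      · exact base hX B h
      · exact main_step hX B (not_le.1 h) fun B' hB' => ih _ (hB ▸ hB') B' rfl
  exact this _ B rfl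

/-- a compact space splittable over Corson compacta is Corson compact -/
theorem spl_corson {X : Type} [TopologicalSpace X] [CompactSpace X] [T2Space X] (hX : Spl X) :
    ∃ (Γ : Type) (e : X → Γ → ℝ), Continuous e ∧ Function.Injective e ∧
      ∀ x, (Function.support (e x)).Countable := by
  obtain ⟨Γ, e, he, hi, hs⟩ := corS_all hX univ
  rw [closure_univ] at hi hs
  exact ⟨Γ, e, he, injOn_univ.1 hi, fun x => hs x (mem_univ x)⟩

end Pool.Agent.H8.Spl
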