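import Pool.Agent.H8.Spl.Tools

set_option autoImplicit false

open Set Filter Topology

namespace Pool.Agent.H8.Spl

open Pool.Agent.H8.Cor

/-- initial segments of a well-order with least element `i0`, always containing `i0` -/
def Jk {I : Type} [LinearOrder I] (i0 : I) (k : WithTop I) : Set I :=
  {i | (i : WithTop I) < k ∨ i = i0}

section

variable {X : Type} [TopologicalSpace X] [CompactSpace X] [T2Space X]

omit [T2Space X] in
theorem retr (F : Set X) (hF : IsClosed F) (𝒢 : Set C(X, ℝ))
    (surj : ∀ u, ∃ w ∈ F, ∀ g ∈ 𝒢, g w = g u)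
    (inj : ∀ u ∈ F, ∀ v ∈ F, (∀ g ∈ 𝒢, g u = g v) → u = v) :
    ∃ R : X → X, Continuous R ∧ (∀ u, R u ∈ F) ∧ (∀ u, ∀ g ∈ 𝒢, g (R u) = g u) ∧
      (∀ u w, w ∈ F → (∀ g ∈ 𝒢, g w = g u) → R u = w) := by
  choose R hRF hRg using surj
  refine ⟨R, ?_, hRF, hRg, ?_⟩
  · have hC : CompactSpace F := isCompact_iff_compactSpace.1 hF.isCompact
    let ρ : F → (𝒢 → ℝ) := fun w g => g.1 w.1
    have hρc : Continuous ρ := continuous_pi fun g => g.1.continuous.comp continuous_subtype_val
    have hρi : Function.Injective ρ := by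
      intro w w' h
      apply Subtype.ext
      exact inj _ w.2 _ w'.2 fun g hg => congrFun h ⟨g, hg⟩
    have hρ := hρc.isClosedEmbedding hρi
    let R' : X → F := fun f => ⟨R f, hRF f⟩
    have hR' : Continuous R' := by
      rw [hρ.isInducing.continuous_iff]
      have : ρ ∘ R' = fun u g => g.1 u := by
        funext u g
        exact hRg u g.1 g.2
      rw [this]
      exact continuous_pi fun g => g.1.continuous
    exact continuous_subtype_val.comp hR'
  · intro u w hw hwu
    refine inj _ (hRF u) _ hw fun g hg => ?_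
    rw [hRg u g hg, hwu g hg]

theorem chain {I : Type} [LinearOrder I] [WellFoundedLT I] (i0 : I) (h0 : ∀ i, i0 ≤ i)
    (tight : ∀ (B : Set X) (x : X), x ∈ closure B → ∃ a ⊆ B, a.Countable ∧ x ∈ closure a)
    (MX : Set I → Set X) (MC : Set I → Set C(X, ℝ)) (hmX : Monotone MX) (hmC : Monotone MC)
    (hX : ∀ k : WithTop I, ∀ x ∈ MX (Jk i0 k), ∃ i ∈ Jk i0 k, x ∈ MX (Iic i))
    (hC : ∀ k : WithTop I, ∀ g ∈ MC (Jk i0 k), ∃ i ∈ Jk i0 k, g ∈ MC (Iic i))
    (surj : ∀ J u, ∃ w ∈ closure (MX J), ∀ g ∈ MC J, g w = g u)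
    (inj : ∀ k : WithTop I, ∀ u ∈ closure (MX (Jk i0 k)), ∀ v ∈ closure (MX (Jk i0 k)),
      (∀ g ∈ MC (Jk i0 k), g u = g v) → u = v)
    (inj' : ∀ i, ∀ u ∈ closure (MX (Iic i)), ∀ v ∈ closure (MX (Iic i)),
      (∀ g ∈ MC (Iic i), g u = g v) → u = v)
    (hcor : ∀ i, CorS (MX (Iic i))) : CorS (MX (Jk i0 ⊤)) := by
  classical
  choose R hRc hRF hRg hRu using fun k : WithTop I =>
    retr (closure (MX (Jk i0 k))) isClosed_closure (MC (Jk i0 k)) (surj _) (inj k)
  choose R' hR'c hR'F hR'g hR'u using fun i : I =>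
    retr (closure (MX (Iic i))) isClosed_closure (MC (Iic i)) (surj _) (inj' i)
  choose Γ e he hinj hsupp using hcor
  have hJI : ∀ i : I, Jk i0 (i : WithTop I) ⊆ Iic i := by
    rintro i j (hj | rfl)
    · exact (WithTop.coe_lt_coe.1 hj).le
    · exact h0 i
  have hIJ : ∀ (i : I) (k : WithTop I), (i : WithTop I) < k → Iic i ⊆ Jk i0 k := by
    intro i k hik j hj
    exact Or.inl (lt_of_le_of_lt (WithTop.coe_le_coe.2 hj) hik)
  have hB : ∀ f : X, {i : I | R' i f ≠ R i f}.Countable := by
    intro f
    set B : Set I := {i : I | R' i f ≠ R i f} with hBdef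
    have hempty : ∀ i : I, i = i0 → (B ∩ {j | j < i}).Countable := by
      rintro i rfl
      refine countable_empty.mono ?_
      rintro j ⟨_, hj⟩
      exact absurd hj (not_lt.2 (h0 j))
    have claim : ∀ k : WithTop I, (B ∩ {i | (i : WithTop I) < k}).Countable := by
      intro k
      induction k using WellFoundedLT.induction with
      | ind k ih =>
      obtain ⟨a, haM, hac, hya⟩ := tight _ _ (hRF k f)
      have hb : ∀ x : X, ∃ b : I, x ∈ a → b ∈ Jk i0 k ∧ x ∈ MX (Iic b) := by
        intro x
        by_cases hx : x ∈ a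
        · obtain ⟨b, hb1, hb2⟩ := hX k x (haM hx)
          exact ⟨b, fun _ => ⟨hb1, hb2⟩⟩
        · exact ⟨i0, fun h => absurd h hx⟩
      choose b hb using hb
      have hcount : ∀ c ∈ Jk i0 k, (B ∩ {i | i < c}).Countable := by
        rintro c (hc | hc)
        · refine (ih c hc).mono ?_
          rintro i ⟨hi1, hi2⟩
          exact ⟨hi1, WithTop.coe_lt_coe.2 hi2⟩
        · exact hempty c hc
      by_cases hcase : ∃ c ∈ Jk i0 k, ∀ x ∈ a, b x ≤ c
      · obtain ⟨c, hc, hc'⟩ := hcase
        refine ((hcount c hc).union (countable_singleton c)).mono ?_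
        rintro i ⟨hiB, hik⟩
        rcases lt_trichotomy i c with h | h | h
        · exact Or.inl ⟨hiB, h⟩
        · exact Or.inr h
        · exfalso
          apply hiB
          have h1 : R k f ∈ closure (MX (Jk i0 (i : WithTop I))) := by
            refine closure_mono ?_ hya
            intro x hx
            refine hmX ?_ (hb x hx).2
            refine hIJ _ _ ?_
            exact WithTop.coe_lt_coe.2 ((hc' x hx).trans_lt h)
          have h4 : R i f = R k f := by
            refine hRu i f _ h1 fun g hg => ?_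
            exact hRg k f g (hmC ((hJI i).trans (hIJ i k hik)) hg)
          have h5 : R' i f = R k f := by
            refine hR'u i f _ (closure_mono (hmX (hJI i)) h1) fun g hg => ?_
            exact hRg k f g (hmC (hIJ i k hik) hg)
          rw [h4, h5]
      · push Not at hcase
        have h1 : B ∩ {i | (i : WithTop I) < k} ⊆ ⋃ x ∈ a, B ∩ {i | i < b x} := by
          rintro i ⟨hiB, hik⟩
          obtain ⟨x, hx, hix⟩ := hcase i (Or.inl hik)
          exact mem_biUnion hx ⟨hiB, hix⟩
        exact (hac.biUnion fun x hx => hcount _ (hb x hx).1).mono h1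
    refine (claim ⊤).mono ?_
    intro i hi
    exact ⟨hi, WithTop.coe_lt_top i⟩
  refine ⟨Γ i0 ⊕ (Σ i, Γ i), fun f => Sum.elim (fun γ => e i0 (R' i0 f) γ)
    (fun p => e p.1 (R' p.1 f) p.2 - e p.1 (R p.1 f) p.2), ?_, ?_, ?_⟩
  · refine continuous_pi fun p => ?_
    rcases p with q | p
    · exact (continuous_apply q).comp ((he i0).comp (hR'c i0))
    · exact ((continuous_apply p.2).comp ((he p.1).comp (hR'c _))).sub
        ((continuous_apply p.2).comp ((he p.1).comp (hRc _)))
  · intro f hf f' hf' h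
    have hbase : R' i0 f = R' i0 f' := by
      apply hinj i0 (hR'F _ f) (hR'F _ f')
      funext γ
      exact congrFun h (Sum.inl γ)
    have h1 : ∀ i : I, R i f = R i f' → R' i f = R' i f' := by
      intro i hi
      apply hinj i (hR'F _ f) (hR'F _ f')
      funext γ
      have := congrFun h (Sum.inr ⟨i, γ⟩)
      simp only [Sum.elim_inr] at this
      rw [hi] at this
      linarith
    have h2 : ∀ i : I, R' i f = R' i f' → ∀ g ∈ MC (Iic i), g f = g f' := by
      intro i hi g hg
      rw [← hR'g i f g hg, ← hR'g i f' g hg, hi]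
    have h3 : ∀ k : WithTop I, ∀ g ∈ MC (Jk i0 k), g f = g f' := by
      intro k
      induction k using WellFoundedLT.induction with
      | ind k ih =>
        intro g hg
        obtain ⟨i, hi, hgi⟩ := hC k g hg
        rcases hi with hi | rfl
        · have h4 := ih i hi
          have h5 : R i f = R i f' := by
            refine hRu i f _ (hRF i f') fun g hg => ?_
            rw [hRg i f' g hg, h4 g hg]
          exact h2 i (h1 i h5) g hgi
        · exact h2 _ hbase g hgi
    exact inj ⊤ f hf f' hf' (h3 ⊤)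
  · intro f _
    refine Countable.mono ?_ ((((hsupp i0 (R' i0 f) (hR'F i0 f)).image
      (Sum.inl : Γ i0 → Γ i0 ⊕ (Σ i, Γ i)))).union
      ((hB f).biUnion fun i _ => (((hsupp i (R' i f) (hR'F i f)).union
        (hsupp i (R i f) (closure_mono (hmX (hJI i)) (hRF i f)))).image
          (fun γ => (Sum.inr ⟨i, γ⟩ : Γ i0 ⊕ (Σ i, Γ i))))))
    rintro (q | ⟨i, γ⟩) hp
    · exact Or.inl ⟨q, hp, rfl⟩
    · right
      rw [Function.mem_support] at hp
      simp only [Sum.elim_inr] at hp
      refine mem_biUnion (x := i) ?_ ⟨γ, ?_, rfl⟩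
      · intro heq
        apply hp
        rw [heq, sub_self]
      · by_contra hcon
        rw [mem_union, not_or, Function.mem_support, Function.mem_support, not_not, not_not] at hcon
        apply hp
        rw [hcon.1, hcon.2, sub_self]

end

end Pool.Agent.H8.Spl
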