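import Pool.Agent.H8.Spl.Iter

set_option autoImplicit false

open Set Filter Topology

namespace Pool.Agent.H8.Spl

open Pool.Agent.H8.Cor

/-- rational boxes -/
def box {X Γ : Type} (e : X → Γ → ℝ) (s : Finset (Γ × ℚ × ℚ)) : Set X :=
  {x | ∀ q ∈ s, (q.2.1 : ℝ) ≤ e x q.1 ∧ e x q.1 ≤ (q.2.2 : ℝ)}

theorem box_closed {X Γ : Type} [TopologicalSpace X] {e : X → Γ → ℝ} (he : Continuous e)
    (s : Finset (Γ × ℚ × ℚ)) : IsClosed (box e s) := by
  have : box e s = ⋂ q ∈ s, ({x | (q.2.1 : ℝ) ≤ e x q.1} ∩ {x | e x q.1 ≤ (q.2.2 : ℝ)}) := by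
    ext x
    simp [box]
  rw [this]
  refine isClosed_biInter fun q _ => ?_
  have h1 : Continuous fun x => e x q.1 := (continuous_apply q.1).comp he
  exact (isClosed_le continuous_const h1).inter (isClosed_le h1 continuous_const)

/-- continuous images of Corson compacta are Corson compact -/
theorem image_corson {X Z : Type} [TopologicalSpace X] [CompactSpace X] [TopologicalSpace Z]
    [T2Space Z] {Γ : Type} (e : X → Γ → ℝ) (he : Continuous e) (hi : Function.Injective e)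
    (hs : ∀ x, (Function.support (e x)).Countable) (π : X → Z) (hπ : Continuous π)
    (hsurj : Function.Surjective π) :
    ∃ (Γ : Type) (e : Z → Γ → ℝ), Continuous e ∧ Function.Injective e ∧
      ∀ x, (Function.support (e x)).Countable := by
  classical
  have hZc : CompactSpace Z := hsurj.compactSpace hπ
  choose σ hσ using hsurj
  cases isEmpty_or_nonempty X with
  | inl hE =>
    exact ⟨Unit, fun _ _ => 0, continuous_const, fun z _ _ => (hE.elim (σ z)), fun _ =>
      Set.to_countable _⟩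
  | inr hne =>
  -- countable dense sets for finite families of functions
  have hD : ∀ (𝒢 : Finset C(Z, ℝ)), ∃ D : Set X, D.Countable ∧ ∀ (u : Z) (n : ℕ),
      ∃ d ∈ D, ∀ g ∈ 𝒢, |g (π d) - g u| < 1 / ((n : ℝ) + 1) := by
    intro 𝒢
    let ψ : X → (𝒢 → ℝ) := fun u g => g.1 (π u)
    obtain ⟨D0, hD0c, hD0⟩ := TopologicalSpace.exists_countable_dense (range ψ)
    have hpre : ∀ y : range ψ, ∃ f, ψ f = y.1 := fun y => y.2
    choose pre hpre using hpre
    refine ⟨pre '' D0, hD0c.image _, fun f n => ?_⟩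
    have hε : (0 : ℝ) < 1 / ((n : ℝ) + 1) := by positivity
    obtain ⟨y, hy, hyd⟩ := Metric.mem_closure_iff.1 (hD0 ⟨ψ (σ f), mem_range_self (σ f)⟩) _ hε
    refine ⟨pre y, ⟨y, hy, rfl⟩, fun g hg => ?_⟩
    have h1 : dist (ψ (σ f)) (ψ (pre y)) < 1 / ((n : ℝ) + 1) := by
      rw [hpre y]
      exact hyd
    have h2 := (dist_le_pi_dist (ψ (σ f)) (ψ (pre y)) ⟨g, hg⟩).trans_lt h1
    rw [dist_comm, Real.dist_eq] at h2
    have h3 : ψ (σ f) ⟨g, hg⟩ = g f := by
      change g (π (σ f)) = g f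
      rw [hσ]
    rw [h3] at h2
    exact h2
  choose D hDc hD using hD
  -- witnesses for pairs of boxes
  have hw : ∀ p : Finset (Γ × ℚ × ℚ) × Finset (Γ × ℚ × ℚ), ∃ (ab : X × X) (h : C(Z, ℝ)),
      ((∃ a ∈ box e p.1, ∃ b ∈ box e p.2, π a = π b) →
        ab.1 ∈ box e p.1 ∧ ab.2 ∈ box e p.2 ∧ π ab.1 = π ab.2) ∧
      ((¬ ∃ a ∈ box e p.1, ∃ b ∈ box e p.2, π a = π b) → ∀ a ∈ box e p.1, ∀ b ∈ box e p.2,
        h (π a) ≠ h (π b)) := by
    rintro ⟨s, t⟩
    by_cases hc : ∃ a ∈ box e s, ∃ b ∈ box e t, π a = π b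
    · obtain ⟨a, ha, b, hb, hab⟩ := hc
      exact ⟨(a, b), 0, fun _ => ⟨ha, hb, hab⟩, fun h => absurd ⟨a, ha, b, hb, hab⟩ h⟩
    · have hcl1 : IsClosed (π '' box e s) := ((box_closed he s).isCompact.image hπ).isClosed
      have hcl2 : IsClosed (π '' box e t) := ((box_closed he t).isCompact.image hπ).isClosed
      have hdis : Disjoint (π '' box e s) (π '' box e t) := by
        rw [Set.disjoint_left]
        rintro _ ⟨a, ha, rfl⟩ ⟨b, hb, hab⟩
        exact hc ⟨a, ha, b, hb, hab.symm⟩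
      obtain ⟨h, h0, h1, -⟩ := exists_continuous_zero_one_of_isClosed hcl1 hcl2 hdis
      refine ⟨(hne.some, hne.some), h, fun h => absurd h hc, fun _ a ha b hb hab => ?_⟩
      have e0 : h (π a) = 0 := h0 ⟨a, ha, rfl⟩
      have e1 : h (π b) = 1 := h1 ⟨b, hb, rfl⟩
      rw [e0, e1] at hab
      exact zero_ne_one hab
  choose ab hf hw1 hw2 using hw
  let dom : Finset Γ → Set (Finset (Γ × ℚ × ℚ) × Finset (Γ × ℚ × ℚ)) := fun E =>
    {s : Finset (Γ × ℚ × ℚ) | (s : Set (Γ × ℚ × ℚ)) ⊆ (E : Set Γ) ×ˢ univ} ×ˢ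
      {s : Finset (Γ × ℚ × ℚ) | (s : Set (Γ × ℚ × ℚ)) ⊆ (E : Set Γ) ×ˢ univ}
  have hdom : ∀ E, (dom E).Countable := fun E =>
    (countable_finsets ((Finset.countable_toSet E).prod countable_univ)).prod
      (countable_finsets ((Finset.countable_toSet E).prod countable_univ))
  let Φ : Finset (X ⊕ (C(Z, ℝ) ⊕ Γ)) → Set (X ⊕ (C(Z, ℝ) ⊕ Γ)) := fun F =>
    ((Sum.inl '' (D F.toRight.toLeft) ∪ Sum.inl '' ((fun x => σ (π x)) '' (F.toLeft : Set X))) ∪
      (Sum.inr '' (Sum.inr '' (⋃ x ∈ F.toLeft, Function.support (e x))))) ∪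
    ((Sum.inl '' ((fun p => (ab p).1) '' dom F.toRight.toRight) ∪
      Sum.inl '' ((fun p => (ab p).2) '' dom F.toRight.toRight)) ∪
      Sum.inr '' (Sum.inl '' (hf '' dom F.toRight.toRight)))
  have hΦ : ∀ F, (Φ F).Countable := by
    intro F
    refine ((((hDc _).image _).union (((Finset.countable_toSet _).image _).image _)).union
      ((Countable.image (Countable.biUnion (Finset.countable_toSet _) fun x _ => hs x) _).image _)).union
      ((((((hdom _).image _).image _)).union ((((hdom _).image _).image _))).union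
        ((((hdom _).image _).image _).image _))
  have hAG : ∀ G, Cl Φ G → ∀ x, (Sum.inl x : X ⊕ (C(Z, ℝ) ⊕ Γ)) ∈ G →
      (Sum.inl (σ (π x)) : X ⊕ (C(Z, ℝ) ⊕ Γ)) ∈ G := by
    intro G hG x hx
    have h3 : (({Sum.inl x} : Finset (X ⊕ (C(Z, ℝ) ⊕ Γ))) : Set _) ⊆ G := by
      rw [Finset.coe_singleton, singleton_subset_iff]
      exact hx
    exact hG _ h3 (Or.inl (Or.inl (Or.inr ⟨_, ⟨x, by simp, rfl⟩, rfl⟩)))
  have hsuppG : ∀ G, Cl Φ G → ∀ x, (Sum.inl x : X ⊕ (C(Z, ℝ) ⊕ Γ)) ∈ G → ∀ γ, e x γ ≠ 0 →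
      (Sum.inr (Sum.inr γ) : X ⊕ (C(Z, ℝ) ⊕ Γ)) ∈ G := by
    intro G hG x hx γ hγ
    have h3 : (({Sum.inl x} : Finset (X ⊕ (C(Z, ℝ) ⊕ Γ))) : Set _) ⊆ G := by
      rw [Finset.coe_singleton, singleton_subset_iff]
      exact hx
    refine hG _ h3 (Or.inl (Or.inr ⟨_, ⟨γ, ?_, rfl⟩, rfl⟩))
    simp only [mem_iUnion]
    exact ⟨x, by simp, hγ⟩
  refine skel (L := Z) (Z := X ⊕ (C(Z, ℝ) ⊕ Γ)) (Q := C(Z, ℝ)) (fun h z => h z)
    (fun h => h.continuous) Φ hΦ (fun z => Sum.inl (σ z)) (fun h => {Sum.inr (Sum.inl h)}) ?_ ?_ ?_ ?_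
  · intro G hG
    have h1 : {h : C(Z, ℝ) | (Sum.inr (Sum.inl h) : X ⊕ (C(Z, ℝ) ⊕ Γ)) ∈ G}.Countable :=
      hG.preimage (Sum.inr_injective.comp Sum.inl_injective)
    refine h1.mono fun h hh => ?_
    exact hh (by simp)
  · intro G hG g hg g' hg' heq
    let XG : Set X := {x | (Sum.inl x : X ⊕ (C(Z, ℝ) ⊕ Γ)) ∈ G}
    let ΓG : Set Γ := {γ | (Sum.inr (Sum.inr γ) : X ⊕ (C(Z, ℝ) ⊕ Γ)) ∈ G}
    have hlift : ∀ g ∈ closure ((fun z => (Sum.inl (σ z) : X ⊕ (C(Z, ℝ) ⊕ Γ))) ⁻¹' G),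
        ∃ x ∈ closure XG, π x = g := by
      intro g hg
      have hcl : IsClosed (π '' closure XG) := (isClosed_closure.isCompact.image hπ).isClosed
      have := closure_minimal (s := (fun z => (Sum.inl (σ z) : X ⊕ (C(Z, ℝ) ⊕ Γ))) ⁻¹' G)
        (t := π '' closure XG)
        (fun z hz => ⟨σ z, subset_closure hz, hσ z⟩) hcl hg
      exact this
    obtain ⟨x, hx, rfl⟩ := hlift g hg
    obtain ⟨y, hy, rfl⟩ := hlift g' hg'
    have h00 : ∀ γ ∉ ΓG, ∀ w ∈ closure XG, e w γ = 0 := by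
      intro γ hγ w hw
      have hcl : IsClosed {w : X | e w γ = 0} :=
        isClosed_eq ((continuous_apply γ).comp he) continuous_const
      refine closure_minimal (fun w hw => ?_) hcl hw
      by_contra hne
      exact hγ (hsuppG G hG w hw γ hne)
    by_contra hne'
    -- separating boxes
    have hsep : ∃ p : Finset (Γ × ℚ × ℚ) × Finset (Γ × ℚ × ℚ),
        (p.1 : Set (Γ × ℚ × ℚ)) ⊆ ΓG ×ˢ univ ∧ (p.2 : Set (Γ × ℚ × ℚ)) ⊆ ΓG ×ˢ univ ∧
        x ∈ box e p.1 ∧ y ∈ box e p.2 ∧ ¬ ∃ a ∈ box e p.1, ∃ b ∈ box e p.2, π a = π b := by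
      by_contra hcon
      push Not at hcon
      apply hne'
      let K0 : Set (X × X) := {q | q.1 ∈ XG ∧ q.2 ∈ XG ∧ π q.1 = π q.2}
      let Ψ : X × X → (ΓG ⊕ ΓG → ℝ) := fun q => Sum.elim (fun γ => e q.1 γ.1) (fun γ => e q.2 γ.1)
      have hΨ : Continuous Ψ := by
        refine continuous_pi fun i => ?_
        rcases i with i | i
        · exact (continuous_apply i.1).comp (he.comp continuous_fst)
        · exact (continuous_apply i.1).comp (he.comp continuous_snd)
      have hmem : Ψ (x, y) ∈ closure (Ψ '' K0) := by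
        apply Cor.mem_closure_pi
        intro J n
        have hq : ∀ r : ℝ, ∃ p q : ℚ, (p : ℝ) ≤ r ∧ r ≤ (q : ℝ) ∧ (q : ℝ) - p < 1 / ((n : ℝ) + 1) := by
          intro r
          have hε : (0 : ℝ) < 1 / ((n : ℝ) + 1) := by positivity
          obtain ⟨p, hp1, hp2⟩ := exists_rat_btwn (show r - 1 / ((n : ℝ) + 1) / 2 < r by linarith)
          obtain ⟨q, hq1, hq2⟩ := exists_rat_btwn (show r < r + 1 / ((n : ℝ) + 1) / 2 by linarith)
          exact ⟨p, q, hp2.le, hq1.le, by linarith⟩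
        choose lo hi' hlo hhi hlh using hq
        let s : Finset (Γ × ℚ × ℚ) := J.toLeft.image fun γ => (γ.1, lo (e x γ.1), hi' (e x γ.1))
        let t : Finset (Γ × ℚ × ℚ) := J.toRight.image fun γ => (γ.1, lo (e y γ.1), hi' (e y γ.1))
        have hsG : (s : Set (Γ × ℚ × ℚ)) ⊆ ΓG ×ˢ univ := by
          intro q hq
          rw [Finset.mem_coe, Finset.mem_image] at hq
          obtain ⟨γ, _, rfl⟩ := hq
          exact ⟨γ.2, mem_univ _⟩
        have htG : (t : Set (Γ × ℚ × ℚ)) ⊆ ΓG ×ˢ univ := by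
          intro q hq
          rw [Finset.mem_coe, Finset.mem_image] at hq
          obtain ⟨γ, _, rfl⟩ := hq
          exact ⟨γ.2, mem_univ _⟩
        have hxs : x ∈ box e s := by
          intro q hq
          rw [Finset.mem_image] at hq
          obtain ⟨γ, _, rfl⟩ := hq
          exact ⟨hlo _, hhi _⟩
        have hyt : y ∈ box e t := by
          intro q hq
          rw [Finset.mem_image] at hq
          obtain ⟨γ, _, rfl⟩ := hq
          exact ⟨hlo _, hhi _⟩
        have hex := hcon (s, t) hsG htG hxs hyt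
        obtain ⟨ha, hb, hab⟩ := hw1 (s, t) hex
        let F : Finset (X ⊕ (C(Z, ℝ) ⊕ Γ)) := (s ∪ t).image fun q => Sum.inr (Sum.inr q.1)
        have hF : (F : Set _) ⊆ G := by
          intro z hz
          rw [Finset.mem_coe, Finset.mem_image] at hz
          obtain ⟨q, hq, rfl⟩ := hz
          rcases Finset.mem_union.1 hq with hq | hq
          · exact (hsG hq).1
          · exact (htG hq).1
        have hFr : ∀ q ∈ s ∪ t, q.1 ∈ F.toRight.toRight := by
          intro q hq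
          rw [Finset.mem_toRight, Finset.mem_toRight, Finset.mem_image]
          exact ⟨q, hq, rfl⟩
        have hd : (s, t) ∈ dom F.toRight.toRight :=
          ⟨fun q hq => ⟨hFr q (Finset.mem_union_left _ hq), mem_univ _⟩,
            fun q hq => ⟨hFr q (Finset.mem_union_right _ hq), mem_univ _⟩⟩
        refine ⟨Ψ (ab (s, t)), ⟨ab (s, t), ⟨?_, ?_, hab⟩, rfl⟩, ?_⟩
        · exact hG F hF (Or.inr (Or.inl (Or.inl ⟨_, ⟨(s, t), hd, rfl⟩, rfl⟩)))
        · exact hG F hF (Or.inr (Or.inl (Or.inr ⟨_, ⟨(s, t), hd, rfl⟩, rfl⟩)))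
        · intro i hi
          rcases i with γ | γ
          · have h1 := ha (γ.1, lo (e x γ.1), hi' (e x γ.1)) (Finset.mem_image.2
              ⟨γ, by simpa using hi, rfl⟩)
            have h2 := hlo (e x γ.1)
            have h3 := hhi (e x γ.1)
            have h4 := hlh (e x γ.1)
            change |e (ab (s, t)).1 γ.1 - e x γ.1| < _
            rw [abs_lt]
            constructor <;> linarith [h1.1, h1.2]
          · have h1 := hb (γ.1, lo (e y γ.1), hi' (e y γ.1)) (Finset.mem_image.2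
              ⟨γ, by simpa using hi, rfl⟩)
            have h2 := hlo (e y γ.1)
            have h3 := hhi (e y γ.1)
            have h4 := hlh (e y γ.1)
            change |e (ab (s, t)).2 γ.1 - e y γ.1| < _
            rw [abs_lt]
            constructor <;> linarith [h1.1, h1.2]
      have hcomp : IsCompact (Ψ '' closure K0) := isClosed_closure.isCompact.image hΨ
      obtain ⟨⟨a0, b0⟩, hK, hΨeq⟩ :=
        closure_minimal (image_mono subset_closure) hcomp.isClosed hmem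
      have ha0 : a0 ∈ closure XG :=
        map_mem_closure continuous_fst hK fun q hq => hq.1
      have hb0 : b0 ∈ closure XG :=
        map_mem_closure continuous_snd hK fun q hq => hq.2.1
      have hax : a0 = x := by
        apply hi
        funext γ
        by_cases hγ : γ ∈ ΓG
        · exact congrFun hΨeq (Sum.inl ⟨γ, hγ⟩)
        · rw [h00 γ hγ a0 ha0, h00 γ hγ x hx]
      have hby : b0 = y := by
        apply hi
        funext γ
        by_cases hγ : γ ∈ ΓG
        · exact congrFun hΨeq (Sum.inr ⟨γ, hγ⟩)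
        · rw [h00 γ hγ b0 hb0, h00 γ hγ y hy]
      have hcl : IsClosed {q : X × X | π q.1 = π q.2} :=
        isClosed_eq (hπ.comp continuous_fst) (hπ.comp continuous_snd)
      have := closure_minimal (fun q (hq : q ∈ K0) => hq.2.2) hcl hK
      rw [← hax, ← hby]
      exact this
    obtain ⟨p, hp1, hp2, hxp, hyp, hno⟩ := hsep
    let F : Finset (X ⊕ (C(Z, ℝ) ⊕ Γ)) := (p.1 ∪ p.2).image fun q => Sum.inr (Sum.inr q.1)
    have hF : (F : Set _) ⊆ G := by
      intro z hz
      rw [Finset.mem_coe, Finset.mem_image] at hz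
      obtain ⟨q, hq, rfl⟩ := hz
      rcases Finset.mem_union.1 hq with hq | hq
      · exact (hp1 hq).1
      · exact (hp2 hq).1
    have hFr : ∀ q ∈ p.1 ∪ p.2, q.1 ∈ F.toRight.toRight := by
      intro q hq
      rw [Finset.mem_toRight, Finset.mem_toRight, Finset.mem_image]
      exact ⟨q, hq, rfl⟩
    have hd : p ∈ dom F.toRight.toRight :=
      ⟨fun q hq => ⟨hFr q (Finset.mem_union_left _ hq), mem_univ _⟩,
        fun q hq => ⟨hFr q (Finset.mem_union_right _ hq), mem_univ _⟩⟩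
    have hhG : (Sum.inr (Sum.inl (hf p)) : X ⊕ (C(Z, ℝ) ⊕ Γ)) ∈ G :=
      hG F hF (Or.inr (Or.inr ⟨_, ⟨_, ⟨p, hd, rfl⟩, rfl⟩, rfl⟩))
    apply hw2 p hno x hxp y hyp
    apply heq (hf p)
    rw [Finset.coe_singleton, singleton_subset_iff]
    exact hhG
  · intro G hG f
    let CG : Set C(Z, ℝ) := {h | (Sum.inr (Sum.inl h) : X ⊕ (C(Z, ℝ) ⊕ Γ)) ∈ G}
    let AG : Set Z := (fun z => (Sum.inl (σ z) : X ⊕ (C(Z, ℝ) ⊕ Γ))) ⁻¹' G
    let Ψ : Z → (CG → ℝ) := fun z h => h.1 z
    have hΨ : Continuous Ψ := continuous_pi fun h => h.1.continuous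
    have hcomp : IsCompact (Ψ '' closure AG) := isClosed_closure.isCompact.image hΨ
    have hmem : Ψ f ∈ closure (Ψ '' AG) := by
      apply Cor.mem_closure_pi
      intro J n
      obtain ⟨d, hd, hdI⟩ := hD (J.image Subtype.val) f n
      let F : Finset (X ⊕ (C(Z, ℝ) ⊕ Γ)) := J.image fun g => Sum.inr (Sum.inl g.1)
      have hF : (F : Set _) ⊆ G := by
        intro z hz
        rw [Finset.mem_coe, Finset.mem_image] at hz
        obtain ⟨g, _, rfl⟩ := hz
        exact g.2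
      have hdG : (Sum.inl d : X ⊕ (C(Z, ℝ) ⊕ Γ)) ∈ G := by
        refine hG F hF (Or.inl (Or.inl (Or.inl ⟨d, ?_, rfl⟩)))
        have h1 : F.toRight.toLeft = J.image Subtype.val := by
          ext g
          simp [F]
        rw [h1]
        exact hd
      exact ⟨Ψ (π d), ⟨π d, hAG G hG d hdG, rfl⟩,
        fun g hg => hdI _ (Finset.mem_image_of_mem _ hg)⟩
    obtain ⟨w, hw, hwu⟩ := closure_minimal (image_mono subset_closure) hcomp.isClosed hmem
    refine ⟨w, hw, fun h hh => ?_⟩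
    rw [Finset.coe_singleton, singleton_subset_iff] at hh
    exact congrFun hwu ⟨h, hh⟩
  · intro B z hz
    have hcl : IsClosed (π '' closure (π ⁻¹' B)) := (isClosed_closure.isCompact.image hπ).isClosed
    obtain ⟨x, hx, rfl⟩ := closure_minimal (t := π '' closure (π ⁻¹' B))
      (fun b hb => ⟨σ b, subset_closure (by rw [mem_preimage, hσ]; exact hb), hσ b⟩) hcl hz
    obtain ⟨a, ha, hac, hxa⟩ := tight_sigma e he hi hs (π ⁻¹' B) x hx
    refine ⟨π '' a, ?_, hac.image _, map_mem_closure hπ hxa fun w hw => ⟨w, hw, rfl⟩⟩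
    rintro _ ⟨w, hw, rfl⟩
    exact ha hw

theorem image_main (X : Type) [TopologicalSpace X] [CompactSpace X] [T2Space X]
    (h : ∀ A : Set X, ∃ (Y : Type) (_ : TopologicalSpace Y), CompactSpace Y ∧
        (∃ (κ : Type) (e : Y → (κ → ℝ)), IsEmbedding e ∧
          ∀ y : Y, (Function.support (e y)).Countable) ∧
        ∃ f : X → Y, Continuous f ∧ f ⁻¹' (f '' A) = A)
    (Z : Type) [TopologicalSpace Z] [T2Space Z] (g : X → Z) (hg : Continuous g)
    (hgs : Function.Surjective g) (B : Set Z) :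
    ∃ (Y : Type) (_ : TopologicalSpace Y), CompactSpace Y ∧
          (∃ (κ : Type) (e : Y → (κ → ℝ)), IsEmbedding e ∧
            ∀ y : Y, (Function.support (e y)).Countable) ∧
          ∃ f : Z → Y, Continuous f ∧ f ⁻¹' (f '' B) = B := by
  have hX : Spl X := by
    intro A
    obtain ⟨Y, tY, _, ⟨κ, e, he, hes⟩, f, hf, hfA⟩ := h A
    refine ⟨κ, fun x => e (f x), he.continuous.comp hf, fun x => hes (f x), ?_⟩
    intro x hx y hy hxy
    apply hy
    rw [← hfA]
    exact ⟨x, hx, he.injective hxy⟩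
  obtain ⟨Γ, e, he, hi, hs⟩ := spl_corson hX
  obtain ⟨Γ', e', he', hi', hs'⟩ := image_corson e he hi hs g hg hgs
  have hZc : CompactSpace Z := hgs.compactSpace hg
  exact ⟨Z, inferInstance, inferInstance, ⟨Γ', e', (he'.isClosedEmbedding hi').isEmbedding, hs'⟩,
    id, continuous_id, by rw [image_id, preimage_id]⟩

end Pool.Agent.H8.Spl
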