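import Pool.Agent.H8.Spl.Iter

set_option autoImplicit false

open Set Filter Topology

namespace Pool.Agent.H8.Spl

theorem square (X : Type) [TopologicalSpace X] [CompactSpace X] [T2Space X]
    (h : ∀ A : Set X, ∃ (Y : Type) (tY : TopologicalSpace Y), CompactSpace Y ∧
        (∃ (κ : Type) (e : Y → κ → ℝ), Topology.IsEmbedding e ∧
          ∀ y, {i : κ | e y i ≠ 0}.Countable) ∧
        ∃ f : X → Y, Continuous f ∧ f ⁻¹' (f '' A) = A) :
    ∀ A : Set (X × X), ∃ (Y : Type) (tY : TopologicalSpace Y), CompactSpace Y ∧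
        (∃ (κ : Type) (e : Y → κ → ℝ), Topology.IsEmbedding e ∧
          ∀ y, {i : κ | e y i ≠ 0}.Countable) ∧
        ∃ f : X × X → Y, Continuous f ∧ f ⁻¹' (f '' A) = A := by
  have hX : Spl X := by
    intro A
    obtain ⟨Y, tY, _, ⟨κ, e, he, hes⟩, f, hf, hfA⟩ := h A
    refine ⟨κ, fun x => e (f x), he.continuous.comp hf, fun x => hes (f x), ?_⟩
    intro x hx y hy hxy
    apply hy
    rw [← hfA]
    exact ⟨x, hx, he.injective hxy⟩
  obtain ⟨Γ, e, he, hi, hs⟩ := spl_corson hX
  intro A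
  refine ⟨X × X, inferInstance, inferInstance, ⟨Γ ⊕ Γ, fun p => Sum.elim (e p.1) (e p.2), ?_, ?_⟩,
    id, continuous_id, ?_⟩
  · have hc : Continuous fun p : X × X => (Sum.elim (e p.1) (e p.2) : Γ ⊕ Γ → ℝ) := by
      refine continuous_pi fun i => ?_
      rcases i with i | i
      · exact (continuous_apply i).comp (he.comp continuous_fst)
      · exact (continuous_apply i).comp (he.comp continuous_snd)
    refine (hc.isClosedEmbedding ?_).isEmbedding
    rintro ⟨x, y⟩ ⟨x', y'⟩ hxy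
    have h1 : e x = e x' := funext fun i => congrFun hxy (Sum.inl i)
    have h2 : e y = e y' := funext fun i => congrFun hxy (Sum.inr i)
    rw [hi h1, hi h2]
  · rintro ⟨x, y⟩
    refine Countable.mono ?_ (((hs x).image (Sum.inl : Γ → Γ ⊕ Γ)).union
      ((hs y).image (Sum.inr : Γ → Γ ⊕ Γ)))
    rintro (i | i) hi
    · exact Or.inl ⟨i, hi, rfl⟩
    · exact Or.inr ⟨i, hi, rfl⟩
  · rw [image_id, preimage_id]

end Pool.Agent.H8.Spl
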