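import Pool.Agent.H8.Spl.Chain

set_option autoImplicit false

open Set Filter Topology

namespace Pool.Agent.H8.Spl

open Pool.Agent.H8.Cor

section

variable {X I : Type} [TopologicalSpace X]

abbrev ZZ (X I : Type) [TopologicalSpace X] : Type := X ⊕ (C(X, ℝ) ⊕ I)

abbrev Op (X I : Type) [TopologicalSpace X] : Type := Finset (ZZ X I) → Set (ZZ X I)

def emb (J : Set I) : Set (ZZ X I) := (fun i => Sum.inr (Sum.inr i)) '' J

def PX (G : Set (ZZ X I)) : Set X := {x | Sum.inl x ∈ G}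

def PC (G : Set (ZZ X I)) : Set C(X, ℝ) := {g | Sum.inr (Sum.inl g) ∈ G}

def MX (Φ : Op X I) (J : Set I) : Set X := PX (hull Φ (emb J))

def MC (Φ : Op X I) (J : Set I) : Set C(X, ℝ) := PC (hull Φ (emb J))

def Srj (Φ : Op X I) : Prop :=
  ∀ G, Cl Φ G → ∀ u, ∃ w ∈ closure (PX G), ∀ g ∈ PC G, g w = g u

theorem MX_mono {Φ Φ' : Op X I} (h : ∀ F, Φ F ⊆ Φ' F) {J J' : Set I} (hJ : J ⊆ J') :
    MX Φ J ⊆ MX Φ' J' := fun _ hx => hull_mono Φ' (image_mono hJ) (hull_mono_op h _ hx)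

theorem MC_mono {Φ Φ' : Op X I} (h : ∀ F, Φ F ⊆ Φ' F) {J J' : Set I} (hJ : J ⊆ J') :
    MC Φ J ⊆ MC Φ' J' := fun _ hx => hull_mono Φ' (image_mono hJ) (hull_mono_op h _ hx)

theorem eqf {Γ : Type} {f : X → Γ → ℝ} (hf : Continuous f) {S : Set X} {𝒢 : Set C(X, ℝ)}
    (h : ∀ x ∈ S, ∀ γ, f x γ ≠ 0 → ∃ g ∈ 𝒢, ∀ y, g y = f y γ) {u v : X} (hu : u ∈ closure S)
    (hv : v ∈ closure S) (huv : ∀ g ∈ 𝒢, g u = g v) : f u = f v := by
  funext γ
  by_cases hγ : ∃ x ∈ S, f x γ ≠ 0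
  · obtain ⟨x, hx, hxγ⟩ := hγ
    obtain ⟨g, hg, hgf⟩ := h x hx γ hxγ
    rw [← hgf u, ← hgf v, huv g hg]
  · push Not at hγ
    have h0 : ∀ w ∈ closure S, f w γ = 0 := by
      have hcl : IsClosed {w : X | f w γ = 0} :=
        isClosed_eq ((continuous_apply γ).comp hf) continuous_const
      exact fun w hw => closure_minimal hγ hcl hw
    rw [h0 u hu, h0 v hv]

/-- the basic closure operation -/
theorem basic [CompactSpace X] (b : I → X) : ∃ Φ : Op X I, (∀ F, (Φ F).Countable) ∧ Srj Φ ∧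
    ∀ G, Cl Φ G → ∀ i, (Sum.inr (Sum.inr i) : ZZ X I) ∈ G → b i ∈ PX G := by
  classical
  have hD : ∀ (𝒢 : Finset C(X, ℝ)), ∃ D : Set X, D.Countable ∧ ∀ (u : X) (n : ℕ),
      ∃ d ∈ D, ∀ g ∈ 𝒢, |g d - g u| < 1 / ((n : ℝ) + 1) := by
    intro 𝒢
    let ψ : X → (𝒢 → ℝ) := fun u g => g.1 u
    obtain ⟨D0, hD0c, hD0⟩ := TopologicalSpace.exists_countable_dense (range ψ)
    have hpre : ∀ y : range ψ, ∃ f, ψ f = y.1 := fun y => y.2
    choose pre hpre using hpre
    refine ⟨pre '' D0, hD0c.image _, fun f n => ?_⟩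
    have hε : (0 : ℝ) < 1 / ((n : ℝ) + 1) := by positivity
    obtain ⟨y, hy, hyd⟩ := Metric.mem_closure_iff.1 (hD0 ⟨ψ f, mem_range_self f⟩) _ hε
    refine ⟨pre y, ⟨y, hy, rfl⟩, fun g hg => ?_⟩
    have h1 : dist (ψ f) (ψ (pre y)) < 1 / ((n : ℝ) + 1) := by
      rw [hpre y]
      exact hyd
    have h2 := (dist_le_pi_dist (ψ f) (ψ (pre y)) ⟨g, hg⟩).trans_lt h1
    rw [dist_comm, Real.dist_eq] at h2
    exact h2
  choose D hDc hD using hD
  let Φ : Op X I := fun F => Sum.inl '' (D F.toRight.toLeft) ∪ Sum.inl '' (b '' (F.toRight.toRight : Set I))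
  refine ⟨Φ, ?_, ?_, ?_⟩
  · intro F
    exact ((hDc _).image _).union (((Finset.countable_toSet _).image _).image _)
  · intro G hG u
    let Ψ : X → (PC G → ℝ) := fun x g => g.1 x
    have hΨ : Continuous Ψ := continuous_pi fun g => g.1.continuous
    have hcomp : IsCompact (Ψ '' closure (PX G)) := isClosed_closure.isCompact.image hΨ
    have hmem : Ψ u ∈ closure (Ψ '' PX G) := by
      apply Cor.mem_closure_pi
      intro J n
      obtain ⟨d, hd, hdI⟩ := hD (J.image Subtype.val) u n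
      refine ⟨Ψ d, ⟨d, ?_, rfl⟩, fun g hg => hdI _ (Finset.mem_image_of_mem _ hg)⟩
      let F : Finset (ZZ X I) := J.image fun g => Sum.inr (Sum.inl g.1)
      have hF : (F : Set (ZZ X I)) ⊆ G := by
        intro z hz
        rw [Finset.mem_coe, Finset.mem_image] at hz
        obtain ⟨g, _, rfl⟩ := hz
        exact g.2
      refine hG F hF (Or.inl ⟨d, ?_, rfl⟩)
      have h1 : F.toRight.toLeft = J.image Subtype.val := by
        ext g
        simp [F]
      rw [h1]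
      exact hd
    obtain ⟨w, hw, hwu⟩ := closure_minimal (image_mono subset_closure) hcomp.isClosed hmem
    exact ⟨w, hw, fun g hg => congrFun hwu ⟨g, hg⟩⟩
  · intro G hG i hi
    have hF : (({Sum.inr (Sum.inr i)} : Finset (ZZ X I)) : Set (ZZ X I)) ⊆ G := by
      rw [Finset.coe_singleton, singleton_subset_iff]
      exact hi
    refine hG _ hF (Or.inr ⟨b i, ⟨i, ?_, rfl⟩, rfl⟩)
    simp

end

section

variable {X I : Type} [TopologicalSpace X] [LinearOrder I]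

/-- candidates -/
def WW (Φ : Op X I) (i : I) (u : X) : Set X :=
  {w | w ∈ closure (MX Φ (Iic i)) ∧ ∀ g ∈ MC Φ (Iic i), g w = g u}

open Classical in
/-- a selection preferring elements of `P` -/
noncomputable def pick (x0 : X) (P W : Set X) : X :=
  if h : (W ∩ P).Nonempty then h.some else if h' : W.Nonempty then h'.some else x0

omit [TopologicalSpace X] in
theorem pick_mem {x0 : X} {P W : Set X} (h : W.Nonempty) : pick x0 P W ∈ W := by
  unfold pick
  split_ifs with h1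
  · exact h1.some_mem.1
  · exact h.some_mem

omit [TopologicalSpace X] in
theorem pick_mem' {x0 : X} {P W : Set X} (h : (W ∩ P).Nonempty) : pick x0 P W ∈ W ∩ P := by
  unfold pick
  rw [dif_pos h]
  exact h.some_mem

noncomputable def sel (Φ : Op X I) (P : Set I → Set X) (x0 : X) (i : I) (u : X) : X :=
  pick x0 (P (Iic i)) (WW Φ i u)

noncomputable def zz (Φ : Op X I) (P : Set I → Set X) (x0 : X) (s : ℕ → I) (u : X) : X :=
  ((hyperfilter ℕ).map fun n => sel Φ P x0 (s n) u).lim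

def Lad (i0 : I) (k : WithTop I) (s : ℕ → I) : Prop :=
  (∀ n, s n ∈ Jk i0 k) ∧ ∀ i ∈ Jk i0 k, ∀ᶠ n in atTop, i ≤ s n

theorem sel_mem {Φ : Op X I} (hs : Srj Φ) (P : Set I → Set X) (x0 : X) (i : I) (u : X) :
    sel Φ P x0 i u ∈ WW Φ i u := by
  apply pick_mem
  obtain ⟨w, hw, hwu⟩ := hs _ (hull_cl Φ (emb (Iic i))) u
  exact ⟨w, hw, hwu⟩

theorem zz_congr [CompactSpace X] {Φ : Op X I} (hs : Srj Φ) (P : Set I → Set X) (x0 : X) (i0 : I)
    {k : WithTop I} {s : ℕ → I} (hl : Lad i0 k s) (u : X) :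
    zz Φ P x0 s (zz Φ P x0 s u) = zz Φ P x0 s u := by
  set z := zz Φ P x0 s u with hz
  have hlim : Tendsto (fun n => sel Φ P x0 (s n) u) (hyperfilter ℕ) (𝓝 z) := by
    have := Ultrafilter.le_nhds_lim ((hyperfilter ℕ).map fun n => sel Φ P x0 (s n) u)
    exact this
  have hag : ∀ n, ∀ g ∈ MC Φ (Iic (s n)), g z = g u := by
    intro n g hg
    have h1 : Tendsto (fun m => g (sel Φ P x0 (s m) u)) (hyperfilter ℕ) (𝓝 (g z)) :=
      (g.continuous.tendsto z).comp hlim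
    have h2 : ∀ᶠ m in (hyperfilter ℕ : Filter ℕ), g (sel Φ P x0 (s m) u) = g u := by
      have h3 := hl.2 (s n) (hl.1 n)
      filter_upwards [(Nat.hyperfilter_le_atTop) h3] with m hm
      exact (sel_mem hs P x0 (s m) u).2 g (MC_mono (fun _ => Subset.rfl) (Iic_subset_Iic.2 hm) hg)
    exact tendsto_nhds_unique h1 (tendsto_const_nhds.congr' (h2.mono fun _ h => h.symm))
  have hW : ∀ n, WW Φ (s n) z = WW Φ (s n) u := by
    intro n
    ext w
    constructor
    · rintro ⟨h1, h2⟩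
      exact ⟨h1, fun g hg => by rw [h2 g hg, hag n g hg]⟩
    · rintro ⟨h1, h2⟩
      exact ⟨h1, fun g hg => by rw [h2 g hg, hag n g hg]⟩
  have hsel : ∀ n, sel Φ P x0 (s n) z = sel Φ P x0 (s n) u := by
    intro n
    unfold sel
    rw [hW n]
  rw [hz]
  unfold zz
  congr 2
  funext n
  exact hsel n

/-- one stage of the construction -/
theorem stage [CompactSpace X] [WellFoundedLT I] (i0 : I) (hX : Spl X) (x0 : X)
    (lad : WithTop I → ℕ → I) (Φ : Op X I) (hs : Srj Φ) (P : Set I → Set X)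
    (hcor : ∀ i, CorS (MX Φ (Iic i))) :
    ∃ Ψ : Op X I, (∀ F, (Ψ F).Countable) ∧
      (∀ G, Cl Ψ G → ∀ i, (Sum.inr (Sum.inr i) : ZZ X I) ∈ G → MX Φ (Iic i) ⊆ PX G →
        ∀ u ∈ closure (MX Φ (Iic i)), ∀ v ∈ closure (MX Φ (Iic i)),
          (∀ g ∈ PC G, g u = g v) → u = v) ∧
      (∀ G, Cl Ψ G → ∀ k : WithTop I, Lad i0 k (lad k) → ∀ u, u ∈ P (Jk i0 k) →
        (∀ l < k, u ∉ P (Jk i0 l)) → zz Φ P x0 (lad k) u ∈ P (Jk i0 k) → u ∈ closure (PX G) →
        zz Φ P x0 (lad k) u ∈ closure (PX G) → (∀ g ∈ PC G, g u = g (zz Φ P x0 (lad k) u)) →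
        zz Φ P x0 (lad k) u = u) := by
  classical
  choose Γ e he hinj hsupp using hcor
  -- levels
  have hlevex : ∀ u, ∃ l : WithTop I, ∀ k, u ∈ P (Jk i0 k) → u ∈ P (Jk i0 l) ∧ l ≤ k := by
    intro u
    by_cases h : ∃ k, u ∈ P (Jk i0 k)
    · obtain ⟨l, hl, hmin⟩ := (wellFounded_lt (α := WithTop I)).has_min {k | u ∈ P (Jk i0 k)} h
      exact ⟨l, fun k hk => ⟨hl, not_lt.1 (hmin k hk)⟩⟩
    · exact ⟨⊤, fun k hk => absurd ⟨k, hk⟩ h⟩
  choose lev hlev1 using hlevex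
  let τ : X → X := fun u =>
    if Lad i0 (lev u) (lad (lev u)) ∧ u ∈ P (Jk i0 (lev u)) ∧
        zz Φ P x0 (lad (lev u)) u ∈ P (Jk i0 (lev u)) then zz Φ P x0 (lad (lev u)) u else u
  obtain ⟨A, hA⟩ := color lev τ (by
    intro u hu
    by_cases hc : Lad i0 (lev u) (lad (lev u)) ∧ u ∈ P (Jk i0 (lev u)) ∧
        zz Φ P x0 (lad (lev u)) u ∈ P (Jk i0 (lev u))
    swap
    · exact absurd (if_neg hc) hu
    have hτ : τ u = zz Φ P x0 (lad (lev u)) u := if_pos hc
    rw [hτ]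
    set z := zz Φ P x0 (lad (lev u)) u with hz
    rcases lt_or_eq_of_le (hlev1 z _ hc.2.2).2 with h | h
    · exact Or.inl h
    · right
      by_cases hc' : Lad i0 (lev z) (lad (lev z)) ∧ z ∈ P (Jk i0 (lev z)) ∧
          zz Φ P x0 (lad (lev z)) z ∈ P (Jk i0 (lev z))
      · have hτz : τ z = zz Φ P x0 (lad (lev z)) z := if_pos hc'
        rw [hτz, h, hz]
        exact zz_congr hs P x0 i0 hc.1 u
      · exact if_neg hc')
  obtain ⟨Δ, f, hf, hfs, hfA⟩ := hX A
  have hfτ : ∀ u, τ u ≠ u → f u ≠ f (τ u) := by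
    intro u hu
    by_cases huA : u ∈ A
    · exact hfA u huA _ ((hA u hu).1 huA)
    · have h1 : τ u ∈ A := by
        by_contra h
        exact huA ((hA u hu).2 h)
      exact (hfA _ h1 u huA).symm
  let eC : ∀ i, Γ i → C(X, ℝ) := fun i γ => ⟨fun x => e i x γ, (continuous_apply γ).comp (he i)⟩
  let fC : Δ → C(X, ℝ) := fun γ => ⟨fun x => f x γ, (continuous_apply γ).comp hf⟩
  let Ψ : Op X I := fun F =>
    (⋃ i ∈ F.toRight.toRight, ⋃ x ∈ F.toLeft, {z | x ∈ MX Φ (Iic i) ∧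
      z ∈ (fun γ => (Sum.inr (Sum.inl (eC i γ)) : ZZ X I)) '' Function.support (e i x)}) ∪
    (⋃ x ∈ F.toLeft, (fun γ => (Sum.inr (Sum.inl (fC γ)) : ZZ X I)) '' Function.support (f x))
  refine ⟨Ψ, ?_, ?_, ?_⟩
  · intro F
    refine Countable.union (Countable.biUnion (Finset.countable_toSet _) fun i _ =>
      Countable.biUnion (Finset.countable_toSet _) fun x _ => ?_)
      (Countable.biUnion (Finset.countable_toSet _) fun x _ => (hfs x).image _)
    by_cases hx : x ∈ MX Φ (Iic i)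
    · exact ((hsupp i x (subset_closure hx)).image _).mono fun z hz => hz.2
    · refine countable_empty.mono fun z hz => ?_
      exact hx hz.1
  · intro G hG i hi hMG u hu v hv huv
    refine hinj i hu hv (eqf (he i) (S := MX Φ (Iic i)) (𝒢 := PC G) ?_ hu hv huv)
    intro x hx γ hγ
    refine ⟨eC i γ, ?_, fun _ => rfl⟩
    have h2 : (({Sum.inl x, Sum.inr (Sum.inr i)} : Finset (ZZ X I)) : Set _) ⊆ G := by
      intro z hz
      rw [Finset.coe_pair] at hz
      rcases hz with rfl | rfl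
      · exact hMG hx
      · exact hi
    refine hG _ h2 (Or.inl ?_)
    simp only [mem_iUnion]
    exact ⟨i, by simp, x, by simp, hx, γ, hγ, rfl⟩
  · intro G hG k hk u huk hul hzk huG hzG huz
    by_contra hne
    have hlu : lev u = k := by
      obtain ⟨h1, h2⟩ := hlev1 u k huk
      rcases lt_or_eq_of_le h2 with h | h
      · exact absurd h1 (hul _ h)
      · exact h
    have hτ : τ u = zz Φ P x0 (lad k) u := by
      have hc : Lad i0 (lev u) (lad (lev u)) ∧ u ∈ P (Jk i0 (lev u)) ∧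
          zz Φ P x0 (lad (lev u)) u ∈ P (Jk i0 (lev u)) := by
        rw [hlu]
        exact ⟨hk, huk, hzk⟩
      have h1 : τ u = zz Φ P x0 (lad (lev u)) u := if_pos hc
      rw [h1, hlu]
    have h2 := hfτ u (by rw [hτ]; exact hne)
    rw [hτ] at h2
    apply h2
    refine eqf hf (S := PX G) (𝒢 := PC G) ?_ huG hzG huz
    intro x hx γ hγ
    refine ⟨fC γ, ?_, fun _ => rfl⟩
    have h3 : (({Sum.inl x} : Finset (ZZ X I)) : Set _) ⊆ G := by
      rw [Finset.coe_singleton, singleton_subset_iff]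
      exact hx
    refine hG _ h3 (Or.inr ?_)
    simp only [mem_iUnion]
    exact ⟨x, by simp, γ, hγ, rfl⟩

end

end Pool.Agent.H8.Spl
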