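import Pool.Agent.H8.Cor.Tight

set_option autoImplicit false

open Set Filter Topology

namespace Pool.Agent.H8.Spl

open Pool.Agent.H8.Cor

/-- well-orders with small initial segments -/
theorem exists_wo (α : Type) : ∃ (lo : LinearOrder α), WellFoundedLT α ∧
    ∀ a : α, Cardinal.mk (Set.Iio a) < Cardinal.mk α := by
  classical
  obtain ⟨r, wo, hr⟩ := Cardinal.exists_ord_eq α
  let lo : LinearOrder α := linearOrderOfSTO r
  refine ⟨lo, ⟨wo.wf⟩, fun a => ?_⟩
  have := Cardinal.card_typein_lt a hr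
  rwa [Ordinal.card_typein] at this

section hull

variable {Z : Type} {Φ Φ' : Finset Z → Set Z}

theorem hull_mono_op (h : ∀ F, Φ F ⊆ Φ' F) (E : Set Z) : hull Φ E ⊆ hull Φ' E :=
  hull_min Φ (fun F hF => (h F).trans (hull_cl Φ' E F hF)) (subset_hull Φ' E)

theorem hull_card (hΦ : ∀ F, (Φ F).Countable) {E : Set Z} {κ : Cardinal.{0}}
    (hκ : Cardinal.aleph0 < κ) (hE : Cardinal.mk E < κ) : Cardinal.mk (hull Φ E) < κ := by
  classical
  by_cases hfin : Cardinal.mk E ≤ Cardinal.aleph0
  · have : (hull Φ E).Countable :=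
      hull_countable Φ hΦ ((Cardinal.le_aleph0_iff_set_countable).1 hfin)
    exact (Cardinal.le_aleph0_iff_set_countable.2 this).trans_lt hκ
  · rw [not_le] at hfin
    have hinf : Infinite E := Cardinal.infinite_iff.2 hfin.le
    have h1 : hull Φ E ⊆ ⋃ F : Finset E, hull Φ (Subtype.val '' (F : Set E)) := by
      intro z hz
      have hd : Directed (· ⊆ ·) fun F : Finset E => (Subtype.val '' (F : Set E) : Set Z) := by
        intro F F'
        exact ⟨F ∪ F', image_mono (by simp), image_mono (by simp)⟩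
      have h2 : E ⊆ ⋃ F : Finset E, (Subtype.val '' (F : Set E) : Set Z) := by
        intro e he
        exact mem_iUnion.2 ⟨{⟨e, he⟩}, ⟨e, he⟩, by simp, rfl⟩
      obtain ⟨F, hF⟩ := hull_iUnion Φ (F := {z}) hd (by
        rw [Finset.coe_singleton, singleton_subset_iff]
        exact hull_mono Φ h2 hz)
      exact mem_iUnion.2 ⟨F, hF (by simp)⟩
    have h3 : Cardinal.mk (⋃ F : Finset E, hull Φ (Subtype.val '' (F : Set E))) ≤
        Cardinal.mk (Finset E) * Cardinal.aleph0 := by
      refine (Cardinal.mk_iUnion_le_sum_mk).trans ?_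
      refine (Cardinal.sum_le_sum _ (fun _ => Cardinal.aleph0) fun F => ?_).trans ?_
      · exact Cardinal.le_aleph0_iff_set_countable.2
          (hull_countable Φ hΦ (F.countable_toSet.image _))
      · rw [Cardinal.sum_const']
    refine ((Cardinal.mk_le_mk_of_subset h1).trans h3).trans_lt ?_
    rw [Cardinal.mk_finset_of_infinite]
    exact Cardinal.mul_lt_of_lt hκ.le hE hκ

end hull

/-- two-colouring along an eventually constant map -/
theorem color {X K : Type} [LinearOrder K] [WellFoundedLT K] (lev : X → K) (τ : X → X)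
    (h : ∀ u, τ u ≠ u → lev (τ u) < lev u ∨ τ (τ u) = τ u) :
    ∃ A : Set X, ∀ u, τ u ≠ u → (u ∈ A ↔ τ u ∉ A) := by
  classical
  have hex : ∀ u, ∃ n : ℕ, τ (τ^[n] u) = τ^[n] u := by
    have : ∀ k, ∀ u, lev u = k → ∃ n : ℕ, τ (τ^[n] u) = τ^[n] u := by
      intro k
      induction k using WellFoundedLT.induction with
      | ind k ih =>
        intro u hu
        by_cases hτ : τ u = u
        · exact ⟨0, hτ⟩
        · rcases h u hτ with h1 | h1
          · obtain ⟨n, hn⟩ := ih _ (hu ▸ h1) (τ u) rfl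
            exact ⟨n + 1, hn⟩
          · exact ⟨1, h1⟩
    exact fun u => this _ u rfl
  refine ⟨{u | Even (Nat.find (hex u))}, fun u hu => ?_⟩
  have h1 : Nat.find (hex u) = Nat.find (hex (τ u)) + 1 := by
    rw [Nat.find_eq_iff]
    refine ⟨?_, ?_⟩
    · rw [Function.iterate_succ_apply]
      exact Nat.find_spec (hex (τ u))
    · intro n hn
      cases n with
      | zero => exact hu
      | succ n =>
        rw [Function.iterate_succ_apply]
        exact Nat.find_min (hex (τ u)) (Nat.lt_of_succ_lt_succ hn)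
  rw [mem_ofPred_eq, mem_ofPred_eq, h1, Nat.even_add_one]

section

variable {X : Type} [TopologicalSpace X]

/-- splittability over compact subsets of Σ-products -/
def Spl (X : Type) [TopologicalSpace X] : Prop :=
  ∀ A : Set X, ∃ (Γ : Type) (f : X → Γ → ℝ), Continuous f ∧
    (∀ x, (Function.support (f x)).Countable) ∧ ∀ x ∈ A, ∀ y ∉ A, f x ≠ f y

/-- the closure of `B` is coded in a Σ-product by functions continuous on the whole space -/
def CorS (B : Set X) : Prop :=
  ∃ (Γ : Type) (e : X → Γ → ℝ), Continuous e ∧ InjOn e (closure B) ∧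
    ∀ x ∈ closure B, (Function.support (e x)).Countable

theorem CorS.mono {B B' : Set X} (h : CorS B') (hB : B ⊆ B') : CorS B := by
  obtain ⟨Γ, e, he, hi, hs⟩ := h
  exact ⟨Γ, e, he, hi.mono (closure_mono hB), fun x hx => hs x (closure_mono hB hx)⟩

variable [CompactSpace X] [T2Space X]

theorem tightX (hX : Spl X) (B : Set X) (x : X) (hx : x ∈ closure B) :
    ∃ a ⊆ B, a.Countable ∧ x ∈ closure a := by
  classical
  by_contra hcon
  let A : Set X := {z | ∃ a ⊆ B, a.Countable ∧ z ∈ closure a}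
  have hxA : x ∉ A := hcon
  obtain ⟨Γ, f, hf, hfs, hfA⟩ := hX A
  have hcomp : CompactSpace (range f) := isCompact_iff_compactSpace.1 (isCompact_range hf)
  let A0 : Set (range f) := {y | ∃ b ∈ B, f b = y.1}
  have h1 : (⟨f x, mem_range_self x⟩ : range f) ∈ closure A0 := by
    have h2 : Continuous (fun z => (⟨f z, mem_range_self z⟩ : range f)) := hf.subtype_mk _
    refine map_mem_closure h2 hx ?_
    intro b hb
    exact ⟨b, hb, rfl⟩
  obtain ⟨A1, hA1, hA1c, hA1x⟩ := tight_sigma (L := range f) Subtype.val continuous_subtype_val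
    Subtype.val_injective (by
      rintro ⟨_, z, rfl⟩
      exact hfs z) A0 _ h1
  have hb : ∀ y : range f, ∃ b : X, y ∈ A1 → b ∈ B ∧ f b = y.1 := by
    intro y
    by_cases hy : y ∈ A1
    · obtain ⟨b, hb, hb'⟩ := hA1 hy
      exact ⟨b, fun _ => ⟨hb, hb'⟩⟩
    · exact ⟨x, fun h => absurd h hy⟩
  choose b hb using hb
  have h3 : f x ∈ f '' closure (b '' A1) := by
    have hcl : IsClosed (f '' closure (b '' A1)) := (isClosed_closure.isCompact.image hf).isClosed
    have h4 : f x ∈ closure (Subtype.val '' A1 : Set (Γ → ℝ)) := by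
      rw [closure_subtype] at hA1x
      exact hA1x
    refine closure_minimal ?_ hcl h4
    rintro _ ⟨y, hy, rfl⟩
    exact ⟨b y, subset_closure ⟨y, hy, rfl⟩, (hb y hy).2⟩
  obtain ⟨z, hz, hzx⟩ := h3
  have hzA : z ∈ A := by
    refine ⟨b '' A1, ?_, hA1c.image _, hz⟩
    rintro _ ⟨y, hy, rfl⟩
    exact (hb y hy).1
  exact hfA z hzA x hxA hzx

/-- points in closures are limits of sequences -/
theorem seqX (hX : Spl X) (B : Set X) (x : X) (hx : x ∈ closure B) :
    ∃ b : ℕ → X, (∀ n, b n ∈ B) ∧ Tendsto b atTop (𝓝 x) := by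
  classical
  obtain ⟨a, haB, hac, hxa⟩ := tightX hX B x hx
  obtain ⟨Γ, f, hf, hfs, hfA⟩ := hX {x}
  let T : Set Γ := ⋃ b ∈ a, Function.support (f b)
  have hT : T.Countable := hac.biUnion fun b _ => hfs b
  have := hT.to_subtype
  let g : X → (T → ℝ) := fun z t => f z t.1
  have hg : Continuous g := continuous_pi fun t => (continuous_apply t.1).comp hf
  have h1 : g x ∈ closure (g '' a) := map_mem_closure hg hxa fun z hz => ⟨z, hz, rfl⟩
  obtain ⟨y, hy, hyx⟩ := mem_closure_iff_seq_limit.1 h1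
  choose b hba hby using hy
  refine ⟨b, fun n => haB (hba n), ?_⟩
  have h0 : ∀ γ ∉ T, ∀ z ∈ closure a, f z γ = 0 := by
    intro γ hγ z hz
    have hcl : IsClosed {z : X | f z γ = 0} :=
      isClosed_eq ((continuous_apply γ).comp hf) continuous_const
    refine closure_minimal (fun w hw => ?_) hcl hz
    by_contra hne
    exact hγ (mem_biUnion hw hne)
  have h2 : Tendsto (fun n => f (b n)) atTop (𝓝 (f x)) := by
    rw [tendsto_pi_nhds]
    intro γ
    by_cases hγ : γ ∈ T
    · have h3 : Tendsto (fun n => y n ⟨γ, hγ⟩) atTop (𝓝 (g x ⟨γ, hγ⟩)) :=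
        (tendsto_pi_nhds.1 hyx) ⟨γ, hγ⟩
      refine h3.congr fun n => ?_
      rw [← hby n]
    · rw [h0 γ hγ x hxa]
      refine tendsto_const_nhds.congr fun n => ?_
      rw [h0 γ hγ _ (subset_closure (hba n))]
  refine tendsto_nhds_of_unique_mapClusterPt (fun z hz => ?_)
  by_contra hne
  have h4 : MapClusterPt (f z) atTop (fun n => f (b n)) :=
    hz.continuousAt_comp hf.continuousAt
  have h5 : f z = f x := GG.tendsto_nhds_unique_of_mapClusterPt h2 h4
  exact hfA x rfl z hne h5.symm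

theorem base (hX : Spl X) (B : Set X) (hB : Cardinal.mk B ≤ Cardinal.continuum) : CorS B := by
  classical
  have h1 : ∀ x : closure B, ∃ b : ℕ → B, Tendsto (fun n => (b n).1) atTop (𝓝 x.1) := by
    intro x
    obtain ⟨b, hb, hbx⟩ := seqX hX B x.1 x.2
    exact ⟨fun n => ⟨b n, hb n⟩, hbx⟩
  choose b hb using h1
  have hinj : Function.Injective b := by
    intro x y hxy
    have := hb x
    rw [hxy] at this
    exact Subtype.ext (tendsto_nhds_unique this (hb y))
  have h2 : Cardinal.mk (closure B) ≤ Cardinal.mk (Set ℕ) := by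
    refine (Cardinal.mk_le_of_injective hinj).trans ?_
    rw [Cardinal.mk_set_nat, Cardinal.mk_arrow]
    simp only [Cardinal.lift_id, Cardinal.mk_nat]
    refine (Cardinal.power_le_power_right hB).trans ?_
    rw [Cardinal.continuum_power_aleph0]
  obtain ⟨ι⟩ := Cardinal.le_def _ _ |>.1 h2
  choose Γ f hf hfs hfA using fun n : ℕ => hX {x | ∃ h : x ∈ closure B, n ∈ ι ⟨x, h⟩}
  refine ⟨Σ n, Γ n, fun x p => f p.1 x p.2, ?_, ?_, ?_⟩
  · exact continuous_pi fun p => (continuous_apply p.2).comp (hf p.1)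
  · intro x hx y hy hxy
    by_contra hne
    have hι : ι ⟨x, hx⟩ ≠ ι ⟨y, hy⟩ := fun h => hne (congrArg Subtype.val (ι.injective h))
    have hn : ∃ n, ¬ (n ∈ ι ⟨x, hx⟩ ↔ n ∈ ι ⟨y, hy⟩) := by
      by_contra hcon
      push Not at hcon
      exact hι (Set.ext hcon)
    obtain ⟨n, hn⟩ := hn
    have hfn : f n x = f n y := by
      funext γ
      exact congrFun hxy ⟨n, γ⟩
    by_cases hnx : n ∈ ι ⟨x, hx⟩
    · have hny : n ∉ ι ⟨y, hy⟩ := fun h => hn ⟨fun _ => h, fun _ => hnx⟩
      exact hfA n x ⟨hx, hnx⟩ y (fun ⟨_, h⟩ => hny h) hfn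
    · have hny : n ∈ ι ⟨y, hy⟩ := by
        by_contra h
        exact hn ⟨fun h' => absurd h' hnx, fun h' => absurd h' h⟩
      exact hfA n y ⟨hy, hny⟩ x (fun ⟨_, h⟩ => hnx h) hfn.symm
  · intro x _
    refine Countable.mono ?_ (countable_iUnion fun n => (hfs n x).image (Sigma.mk n))
    rintro ⟨n, γ⟩ h
    exact mem_iUnion.2 ⟨n, γ, h, rfl⟩

end

end Pool.Agent.H8.Spl
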